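import Pool.Agent.TH833.SP.Auto

set_option autoImplicit false

/-!
# The main theorem on sums of products
-/

open Filter Polynomial

namespace Pool.Agent.TH833.SP

attribute [local instance] Ultrafilter.semigroup Ultrafilter.addSemigroup

theorem main {κ : Type*} (c : ℕ → κ)
    {m : ℕ} {A : Type*} (k : Fin m → ℕ) (hk : ∀ t, 2 ≤ k t) (a : Fin m → ℕ → A)
    (ha : ∀ t, (ker (k t) (a t)).Finite)
    {D : Type*} [Finite D] (b : ℕ → D) (hb : ∀ n : ℕ, 0 < n → ∃ M : ℕ, 0 < M ∧ ∀ j : ℕ, b (n + M * j) = b n)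
    {T : Type*} [Semigroup T] [Finite T] (τ : ℕ → T) 
    (hτ : ∀ v : ℕ, 0 < v → ∀ x : ℕ → ℕ, (∀ i, 0 < x i) → ∃ F : Finset ℕ, F.Nonempty ∧
      ∑ i ∈ F, x i ∈ {u | τ (u + v) = τ u * τ v})
    {s : ℕ} (Q : Fin s → ℝ[X]) (β : Fin s → ℝ)
    (hc : ∀ n n' : ℕ, 0 < n → 0 < n' → (∀ t, a t n = a t n') → b n = b n' → τ n = τ n' →
      (∀ j, SignType.sign (Int.fract ((Q j).eval (n : ℝ)) - β j) =
        SignType.sign (Int.fract ((Q j).eval (n' : ℝ)) - β j)) → c n = c n')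
    (K : ℕ) :
    (∃ x : ℕ → ℕ, StrictMono x ∧ K < x 0 ∧ ∃ col : κ, ∀ 𝓕 : Finset (Finset ℕ), 𝓕.Nonempty →
      (∀ F ∈ 𝓕, F.Nonempty) → (∀ F ∈ 𝓕, ∀ H ∈ 𝓕, F.max = H.max → F = H) →
      c (∑ F ∈ 𝓕, ∏ i ∈ F, x i) = col) ∧
    ∃ x y : ℕ, K < x ∧ x < y ∧ c y = c x ∧ c (x + y) = c x ∧ c (x * y) = c x := by
  classical
  choose T₀ i₀ f₀ τ₀ F₀ h₀ hM₀ using fun t => auto_rep (hk t) (ha t)
  have : ∀ t, Finite (T₀ t) := f₀
  let ρ : ℕ+ → (∀ t, T₀ t) × RZ D × T := fun n => (fun t => τ₀ t n, ⟨b n⟩, τ n)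
  have hρ : ∀ r : Ultrafilter ℕ+, r + r = r → ∀ w v : ℕ+,
      ∀ᶠ n in (r : Filter ℕ+), ρ (w * n + v) = ρ (w * n) * ρ v := by
    intro r hr w v
    have h1 : ∀ t, ∀ᶠ n : ℕ+ in (r : Filter ℕ+),
        τ₀ t ((w * n + v : ℕ+) : ℕ) = τ₀ t ((w * n : ℕ+) : ℕ) * τ₀ t (v : ℕ) := by
      intro t
      obtain ⟨M, hM, h⟩ := hM₀ t v v.pos
      filter_upwards [idem_dvd hr ⟨M, hM⟩] with n hn
      rw [PNat.add_coe]
      refine h _ (w * n).pos ?_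
      have := PNat.dvd_iff.1 hn
      rw [PNat.mul_coe]
      exact Dvd.dvd.mul_left this _
    have h2 : ∀ᶠ n : ℕ+ in (r : Filter ℕ+), b ((w * n + v : ℕ+) : ℕ) = b v := by
      obtain ⟨M, hM, h⟩ := hb v v.pos
      filter_upwards [idem_dvd hr ⟨M, hM⟩] with n hn
      obtain ⟨j, hj⟩ := PNat.dvd_iff.1 hn
      have e : ((w * n + v : ℕ+) : ℕ) = v + M * (w * j) := by
        rw [PNat.add_coe, PNat.mul_coe, hj, PNat.mk_coe]
        ring
      rw [e, h]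
    have h3 : ∀ᶠ n : ℕ+ in (r : Filter ℕ+),
        τ ((w * n + v : ℕ+) : ℕ) = τ ((w * n : ℕ+) : ℕ) * τ (v : ℕ) :=
      ipstar_eventually (hτ v v.pos) hr w
    filter_upwards [eventually_all.2 h1, h2, h3] with n hn1 hn2 hn3
    refine Prod.ext (funext fun t => hn1 t) (Prod.ext ?_ hn3)
    show (⟨b ((w * n + v : ℕ+) : ℕ)⟩ : RZ D) = (⟨b ((w * n : ℕ+) : ℕ)⟩ : RZ D) * ⟨b v⟩
    rw [hn2, RZ.mul_eq]
  obtain ⟨p, hpJ, hpp⟩ := exists_good ρ hρ
  obtain ⟨e, he⟩ := ultra_const p ρ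
  have hee : e * e = e := by
    obtain ⟨n, hn1, hn2⟩ := (he.and (hpJ.1 1)).exists
    rw [one_mul, hn1] at hn2
    exact hn2
  set R : Fin s → ℝ[X] := fun j => Q j - C ((Q j).eval 0) with hR
  have hR0 : ∀ j, (R j).eval 0 = 0 := fun j => by simp [hR]
  choose σ hσ using fun j => ultra_const p
    (fun n : ℕ+ => SignType.sign (sd ((R j).eval (n : ℝ))))
  have hG : ∀ᶠ n in (p : Filter ℕ+), G ρ R e σ n := by
    filter_upwards [he, eventually_all.2 hσ] with n hn1 hn2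
    exact ⟨hn1, hn2⟩
  choose δ₀ hδ₀ hph using fun j => phase ((Q j).eval 0) (β j)
  obtain ⟨δ, hδ, hδ2, hδ3⟩ : ∃ δ : ℝ, 0 < δ ∧ δ ≤ 1 / 2 ∧ ∀ j, δ ≤ δ₀ j := by
    by_cases hs : Nonempty (Fin s)
    · obtain ⟨j₀, hj₀⟩ := Finite.exists_min δ₀
      exact ⟨min (1 / 2) (δ₀ j₀), lt_min (by norm_num) (hδ₀ j₀), min_le_left _ _,
        fun j => (min_le_right _ _).trans (hj₀ j)⟩
    · exact ⟨1 / 2, by norm_num, le_rfl, fun j => absurd ⟨j⟩ hs⟩
  obtain ⟨x, hx1, hx2, hx3⟩ := exists_seq hpJ hpp hee hR0 hG hδ hδ2 K.succPNat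
  -- the colour is constant on good integers
  have hcol : ∀ v v' : ℕ+, G' ρ R e σ δ v → G' ρ R e σ δ v' → c v = c v' := by
    intro v v' hv hv'
    have hρv : ρ v = ρ v' := hv.1.1.trans hv'.1.1.symm
    refine hc v v' v.pos v'.pos (fun t => ?_) ?_ ?_ (fun j => ?_)
    · have h1 : τ₀ t v = τ₀ t v' := congrFun (congrArg Prod.fst hρv) t
      rw [h₀, h₀, h1]
    · have h1 : (⟨b v⟩ : RZ D) = ⟨b v'⟩ := congrArg (fun q => q.2.1) hρv
      simpa using h1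
    · exact congrArg (fun q => q.2.2) hρv
    · have hq : ∀ w : ℕ+, Int.fract ((Q j).eval (w : ℝ)) =
          Int.fract ((Q j).eval 0 + sd ((R j).eval (w : ℝ))) := by
        intro w
        have e1 : (Q j).eval (w : ℝ) = ((Q j).eval 0 + sd ((R j).eval (w : ℝ))) +
            (round ((R j).eval (w : ℝ)) : ℤ) := by
          simp only [sd, hR, eval_sub, eval_C]
          ring
        conv_lhs => rw [e1]
        rw [Int.fract_add_intCast]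
      rw [hq v, hq v']
      exact hph j _ _ (lt_of_lt_of_le (hv.2 j) (hδ3 j)) (lt_of_lt_of_le (hv'.2 j) (hδ3 j))
        ((hv.1.2 j).trans (hv'.1.2 j).symm)
  have hsingle : ∀ i : ℕ, ∃ v : ℕ+, (v : ℕ) = (x i : ℕ) ∧ G' ρ R e σ δ v := by
    intro i
    obtain ⟨v, hv1, hv2⟩ := hx3 {{i}} (by simp) (by simp) (by simp)
    exact ⟨v, by simpa using hv1, hv2⟩
  obtain ⟨v₀, hv₀, hv₀'⟩ := hsingle 0
  have main : ∀ 𝓕 : Finset (Finset ℕ), 𝓕.Nonempty →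
      (∀ F ∈ 𝓕, F.Nonempty) → (∀ F ∈ 𝓕, ∀ H ∈ 𝓕, F.max = H.max → F = H) →
      c (∑ F ∈ 𝓕, ∏ i ∈ F, (x i : ℕ)) = c (x 0) := by
    intro 𝓕 h1 h2 h3
    obtain ⟨v, hv1, hv2⟩ := hx3 𝓕 h1 h2 h3
    rw [← hv1, ← hv₀]
    exact hcol v v₀ hv2 hv₀'
  have hK : K < (x 0 : ℕ) := by
    have h1 : ((K.succPNat : ℕ+) : ℕ) < x 0 := hx2
    rw [Nat.succPNat_coe] at h1
    omega
  refine ⟨⟨fun i => (x i : ℕ), fun i j hij => hx1 hij, hK, c (x 0), main⟩,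
    x 0, x 1, hK, hx1 one_pos, ?_, ?_, ?_⟩
  · have := main {{1}} (by simp) (by simp) (by simp)
    simpa using this
  · have h01 : ({0} : Finset ℕ) ≠ {1} := by decide
    have := main {{0}, {1}} (by simp) (by simp) (by
      intro F hF H hH hmax
      simp only [Finset.mem_insert, Finset.mem_singleton] at hF hH
      rcases hF with rfl | rfl <;> rcases hH with rfl | rfl <;> first | rfl | (revert hmax; decide))
    rw [Finset.sum_pair h01, Finset.prod_singleton, Finset.prod_singleton] at this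
    exact this
  · have := main {{0, 1}} (by simp) (by simp) (by simp)
    rw [Finset.sum_singleton, Finset.prod_pair (by decide)] at this
    exact this

end Pool.Agent.TH833.SP
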