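import Pool.Agent.TH833.SP.Sieve

set_option autoImplicit false

/-!
# Colourings of sieve type: the main theorem
-/

open Filter Topology

namespace Pool.Agent.TH833.SP.Sieve

attribute [local instance] Ultrafilter.semigroup Ultrafilter.addSemigroup

section main

variable {κ μ : Type*}

/-- good ultrafilters, closed under addition and multiplication -/
def K1 (g : ℕ → κ) : Set (Ultrafilter ℕ+) :=
  {q | (∀ M : ℕ+, ∀ᶠ n in (q : Filter ℕ+), M ∣ n) ∧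
    ∀ v a : ℕ+, ∀ᶠ n : ℕ+ in (q : Filter ℕ+), g ((v + a * n : ℕ+) : ℕ) = g v}

theorem K1_closed (g : ℕ → κ) : IsClosed (K1 g) := by
  have e : K1 g = (⋂ M : ℕ+, {q : Ultrafilter ℕ+ | ∀ᶠ n in (q : Filter ℕ+), M ∣ n}) ∩
      (⋂ v : ℕ+, ⋂ a : ℕ+, {q : Ultrafilter ℕ+ | ∀ᶠ n : ℕ+ in (q : Filter ℕ+),
        g ((v + a * n : ℕ+) : ℕ) = g v}) := by
    ext q
    simp only [K1, Set.mem_ofPred_eq, Set.mem_inter_iff, Set.mem_iInter]
  rw [e]
  exact IsClosed.inter (isClosed_iInter fun M => isClosed_basic _)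
    (isClosed_iInter fun v => isClosed_iInter fun a => isClosed_basic _)

theorem K1_mul (g : ℕ → κ) {q q' : Ultrafilter ℕ+} (hq' : q' ∈ K1 g) : q * q' ∈ K1 g := by
  refine ⟨fun M => ?_, fun v a => ?_⟩
  · rw [Ultrafilter.eventually_mul]
    refine Eventually.of_forall fun m => ?_
    filter_upwards [hq'.1 M] with n hn
    exact Dvd.dvd.mul_left hn m
  · rw [Ultrafilter.eventually_mul]
    refine Eventually.of_forall fun m => ?_
    filter_upwards [hq'.2 v (a * m)] with n hn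
    rwa [mul_assoc] at hn

theorem K1_add (g : ℕ → κ) {q q' : Ultrafilter ℕ+} (hq : q ∈ K1 g) (hq' : q' ∈ K1 g) :
    q + q' ∈ K1 g := by
  refine ⟨fun M => ?_, fun v a => ?_⟩
  · rw [Ultrafilter.eventually_add]
    filter_upwards [hq.1 M] with m hm
    filter_upwards [hq'.1 M] with n hn
    have h1 := PNat.dvd_iff.1 hm
    have h2 := PNat.dvd_iff.1 hn
    rw [PNat.dvd_iff, PNat.add_coe]
    exact dvd_add h1 h2
  · rw [Ultrafilter.eventually_add]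
    filter_upwards [hq.2 v a] with m hm
    filter_upwards [hq'.2 (v + a * m) a] with n hn
    rw [hm] at hn
    rw [mul_add, ← add_assoc]
    exact hn

/-- `K1 g` is nonempty for colourings of sieve type -/
theorem K1_nonempty (g : ℕ → κ)
    (hg : ∀ T : ℕ, 0 < T → ∃ M : ℕ, 0 < M ∧ ∃ 𝓑 : Set ℕ, (∀ b ∈ 𝓑, 2 ≤ b) ∧ Summable (wt 𝓑) ∧
      ∀ u : ℕ, u ≡ 1 [MOD M] → (∀ b ∈ 𝓑, ¬ b ∣ u) → g (T * u) = g T) :
    (K1 g).Nonempty := by
  classical
  choose! M hM 𝓑 h𝓑2 h𝓑s hgu using hg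
  have key : ∀ t : ℕ, ∃ n : ℕ+, (∀ d : ℕ, 1 ≤ d → d ≤ t → d ∣ (n : ℕ)) ∧
      ∀ v a : ℕ, 1 ≤ v → v ≤ t → 1 ≤ a → a ≤ t → g (v + a * n) = g v := by
    intro t
    set t' : ℕ := max (t + 1) ((Finset.range (t + 1)).sup fun v => v * M v) with ht'
    -- the union of the sets of moduli
    set 𝓒 : Set ℕ := {b | ∃ v, 1 ≤ v ∧ v ≤ t ∧ b ∈ 𝓑 v} with h𝓒
    have h2 : ∀ b ∈ 𝓒, 2 ≤ b := by
      rintro b ⟨v, hv1, _, hb⟩
      exact h𝓑2 v hv1 b hb
    have hs : Summable (wt 𝓒) := by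
      have h3 : Summable (fun b => ∑ v ∈ Finset.Icc 1 t, wt (𝓑 v) b) :=
        summable_sum fun v hv => h𝓑s v (Finset.mem_Icc.1 hv).1
      refine Summable.of_nonneg_of_le (fun b => wt_nonneg 𝓒 b) (fun b => ?_) h3
      by_cases hb : b ∈ 𝓒
      · obtain ⟨v, hv1, hv2, hbv⟩ := hb
        have h4 : wt 𝓒 b = wt (𝓑 v) b := by
          rw [wt, wt, if_pos ⟨v, hv1, hv2, hbv⟩, if_pos hbv]
        rw [h4]
        exact Finset.single_le_sum (f := fun v => wt (𝓑 v) b) (fun v _ => wt_nonneg _ _)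
          (Finset.mem_Icc.2 ⟨hv1, hv2⟩)
      · rw [wt, if_neg hb]
        exact Finset.sum_nonneg fun v _ => wt_nonneg _ _
    obtain ⟨n, hn0, hn1, hn2⟩ := sieve h2 hs t' (by omega)
    refine ⟨⟨n, hn0⟩, fun d hd1 hd2 => hn1 d hd1 (by omega), fun v a hv1 hv2 ha1 ha2 => ?_⟩
    rw [PNat.mk_coe]
    have hvn : v ∣ n := hn1 v hv1 (by omega)
    have hvM : v * M v ∣ n := by
      refine hn1 _ (Nat.mul_pos hv1 (hM v hv1)) ?_
      have : v * M v ≤ (Finset.range (t + 1)).sup fun v => v * M v :=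
        Finset.le_sup (f := fun v => v * M v) (Finset.mem_range.2 (by omega))
      omega
    have e : v + a * n = v * (1 + a * (n / v)) := by
      obtain ⟨w, rfl⟩ := hvn
      rw [Nat.mul_div_cancel_left _ (by omega : 0 < v)]
      ring
    rw [e]
    refine hgu v hv1 _ ?_ ?_
    · obtain ⟨w, rfl⟩ := hvM
      rw [show v * M v * w = v * (M v * w) by ring, Nat.mul_div_cancel_left _ (by omega : 0 < v)]
      have : a * (M v * w) ≡ 0 [MOD M v] := (Nat.modEq_zero_iff_dvd).2 ⟨a * w, by ring⟩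
      simpa using Nat.ModEq.add_left 1 this
    · intro b hb
      exact hn2 a v ha1 (by omega) hv1 (by omega) b ⟨v, hv1, hv2, hb⟩
  choose n hn1 hn2 using key
  refine ⟨(hyperfilter ℕ).map n, fun M' => ?_, fun v a => ?_⟩
  · rw [Ultrafilter.coe_map, eventually_map]
    have : ∀ᶠ t in (hyperfilter ℕ : Filter ℕ), (M' : ℕ) ≤ t :=
      (Nat.hyperfilter_le_atTop) (eventually_ge_atTop _)
    filter_upwards [this] with t ht
    exact PNat.dvd_iff.2 (hn1 t M' M'.pos ht)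
  · rw [Ultrafilter.coe_map, eventually_map]
    have h1 : ∀ᶠ t in (hyperfilter ℕ : Filter ℕ), (v : ℕ) ≤ t :=
      (Nat.hyperfilter_le_atTop) (eventually_ge_atTop _)
    have h2 : ∀ᶠ t in (hyperfilter ℕ : Filter ℕ), (a : ℕ) ≤ t :=
      (Nat.hyperfilter_le_atTop) (eventually_ge_atTop _)
    filter_upwards [h1, h2] with t ht1 ht2
    have := hn2 t v a v.pos ht1 a.pos ht2
    rw [PNat.add_coe, PNat.mul_coe]
    exact this

/-- good ultrafilters -/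
def K2 (g : ℕ → κ) (h : ℕ → μ) : Set (Ultrafilter ℕ+) :=
  K1 g ∩ ⋂ w : ℕ+, ⋂ v : ℕ+, {q : Ultrafilter ℕ+ | ∀ᶠ n : ℕ+ in (q : Filter ℕ+),
    h ((w * n + v : ℕ+) : ℕ) = h ((w * n : ℕ+) : ℕ)}

theorem exists_good2 (g : ℕ → κ) (h : ℕ → μ)
    (hg : ∀ T : ℕ, 0 < T → ∃ M : ℕ, 0 < M ∧ ∃ 𝓑 : Set ℕ, (∀ b ∈ 𝓑, 2 ≤ b) ∧ Summable (wt 𝓑) ∧
      ∀ u : ℕ, u ≡ 1 [MOD M] → (∀ b ∈ 𝓑, ¬ b ∣ u) → g (T * u) = g T)
    (hh : ∀ v : ℕ, 0 < v → ∀ x : ℕ → ℕ, (∀ i, 0 < x i) → ∃ F : Finset ℕ, F.Nonempty ∧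
      ∑ i ∈ F, x i ∈ {u | h (u + v) = h u}) :
    ∃ p ∈ K2 g h, p * p = p := by
  obtain ⟨r, hr1, hr2⟩ := exists_idempotent_in_compact_add_subsemigroup
    (@Ultrafilter.continuous_add_left ℕ+ _) (K1 g) (K1_nonempty g hg) (K1_closed g).isCompact
    (fun _ hx _ hy => K1_add g hx hy)
  refine exists_idempotent_in_compact_subsemigroup (@Ultrafilter.continuous_mul_left ℕ+ _)
    (K2 g h) ⟨r, hr1, ?_⟩ (IsClosed.inter (K1_closed g) (isClosed_iInter fun w =>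
      isClosed_iInter fun v => isClosed_basic _)).isCompact (fun q _ q' hq' => ⟨K1_mul g hq'.1, ?_⟩)
  · simp only [Set.mem_iInter]
    intro w v
    have := ipstar_eventually (hh v v.pos) hr2 w
    filter_upwards [this] with n hn
    rw [PNat.add_coe]
    exact hn
  · have h2 := hq'.2
    simp only [Set.mem_iInter, Set.mem_ofPred_eq] at h2 ⊢
    intro w v
    rw [Ultrafilter.eventually_mul]
    refine Eventually.of_forall fun m => ?_
    filter_upwards [h2 (w * m) v] with n hn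
    rw [← mul_assoc]
    exact hn

theorem main {κ' : Type*} [Finite κ] [Finite μ] (c : ℕ → κ') (g : ℕ → κ) (h : ℕ → μ)
    (hg : ∀ T : ℕ, 0 < T → ∃ M : ℕ, 0 < M ∧ ∃ 𝓑 : Set ℕ, (∀ b ∈ 𝓑, 2 ≤ b) ∧ Summable (wt 𝓑) ∧
      ∀ u : ℕ, u ≡ 1 [MOD M] → (∀ b ∈ 𝓑, ¬ b ∣ u) → g (T * u) = g T)
    (hh : ∀ v : ℕ, 0 < v → ∀ x : ℕ → ℕ, (∀ i, 0 < x i) → ∃ F : Finset ℕ, F.Nonempty ∧
      ∑ i ∈ F, x i ∈ {u | h (u + v) = h u})
    (hc : ∀ n n' : ℕ, 0 < n → 0 < n' → g n = g n' → h n = h n' → c n = c n') (K : ℕ) :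
    (∃ x : ℕ → ℕ, StrictMono x ∧ K < x 0 ∧ ∃ col : κ', ∀ 𝓕 : Finset (Finset ℕ), 𝓕.Nonempty →
      (∀ F ∈ 𝓕, F.Nonempty) → (∀ F ∈ 𝓕, ∀ H ∈ 𝓕, F.max = H.max → F = H) →
      c (∑ F ∈ 𝓕, ∏ i ∈ F, x i) = col) ∧
    ∃ x y : ℕ, K < x ∧ x < y ∧ c y = c x ∧ c (x + y) = c x ∧ c (x * y) = c x := by
  classical
  obtain ⟨p, hpK, hpp⟩ := exists_good2 g h hg hh
  have hp2 := hpK.2
  simp only [Set.mem_iInter, Set.mem_ofPred_eq] at hp2
  obtain ⟨c₁, hc₁⟩ := ultra_const p (fun n : ℕ+ => g n)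
  obtain ⟨c₂, hc₂⟩ := ultra_const p (fun n : ℕ+ => h n)
  set G : ℕ+ → Prop := fun n => g n = c₁ ∧ h n = c₂ with hG
  have hσ : ∀ᶠ m in (p : Filter ℕ+), G m := hc₁.and hc₂
  have hlarge : ∀ K : ℕ+, ∀ᶠ n in (p : Filter ℕ+), K < n := by
    intro K
    filter_upwards [hpK.1.1 (K + 1)] with n hn
    exact lt_of_lt_of_le (PNat.lt_add_right K 1) (PNat.le_of_dvd hn)
  obtain ⟨x, hx1, hx2, hx3⟩ := Gen.exists_seq (G := G) (G' := G) hpp hlarge (fun a ha => ha)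
    (fun a v ha hv => by
      filter_upwards [ha, hpK.1.2 v a, hp2 a v] with n hn1 hn2 hn3
      refine ⟨?_, ?_⟩
      · show g ((a * n + v : ℕ+) : ℕ) = c₁
        rw [add_comm, hn2]
        exact hv.1
      · show h ((a * n + v : ℕ+) : ℕ) = c₂
        rw [hn3]
        exact hn1.2) hσ K.succPNat
  have hcol : ∀ v v' : ℕ+, G v → G v' → c v = c v' := fun v v' hv hv' =>
    hc v v' v.pos v'.pos (hv.1.trans hv'.1.symm) (hv.2.trans hv'.2.symm)
  have hsingle : ∀ i : ℕ, ∃ v : ℕ+, (v : ℕ) = (x i : ℕ) ∧ G v := by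
    intro i
    obtain ⟨v, hv1, hv2⟩ := hx3 {{i}} (by simp) (by simp) (by simp)
    exact ⟨v, by simpa using hv1, hv2⟩
  obtain ⟨v₀, hv₀, hv₀'⟩ := hsingle 0
  have main : ∀ 𝓕 : Finset (Finset ℕ), 𝓕.Nonempty →
      (∀ F ∈ 𝓕, F.Nonempty) → (∀ F ∈ 𝓕, ∀ H ∈ 𝓕, F.max = H.max → F = H) →
      c (∑ F ∈ 𝓕, ∏ i ∈ F, (x i : ℕ)) = c (x 0) := by
    intro 𝓕 h1 h2 h3
    obtain ⟨v, hv1, hv2⟩ := hx3 𝓕 h1 h2 h3
    rw [← hv1, ← hv₀]
    exact hcol v v₀ hv2 hv₀'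
  have hK : K < (x 0 : ℕ) := by
    have h1 : ((K.succPNat : ℕ+) : ℕ) < x 0 := hx2
    rw [Nat.succPNat_coe] at h1
    omega
  refine ⟨⟨fun i => (x i : ℕ), fun i j hij => hx1 hij, hK, c (x 0), main⟩,
    x 0, x 1, hK, hx1 one_pos, ?_, ?_, ?_⟩
  · have := main {{1}} (by simp) (by simp) (by simp)
    simpa using this
  · have h01 : ({0} : Finset ℕ) ≠ {1} := by decide
    have := main {{0}, {1}} (by simp) (by simp) (by
      intro F hF H hH hmax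
      simp only [Finset.mem_insert, Finset.mem_singleton] at hF hH
      rcases hF with rfl | rfl <;> rcases hH with rfl | rfl <;> first | rfl | (revert hmax; decide))
    rw [Finset.sum_pair h01, Finset.prod_singleton, Finset.prod_singleton] at this
    exact this
  · have := main {{0, 1}} (by simp) (by simp) (by simp)
    rw [Finset.sum_singleton, Finset.prod_pair (by decide)] at this
    exact this

end main

end Pool.Agent.TH833.SP.Sieve
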