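import Pool.Agent.TH833.SP.Seq

set_option autoImplicit false

/-!
# Automatic sequences, Toeplitz sequences, `IP*` conditions and phases
-/

open Filter Polynomial Topology

namespace Pool.Agent.TH833.SP

universe u v

section auto

variable {C : Type v}

/-- the `k`-kernel -/
def ker (k : ℕ) (c : ℕ → C) : Set (ℕ → C) :=
  {f : ℕ → C | ∃ i j : ℕ, j < k ^ i ∧ f = fun n => c (k ^ i * n + j)}

theorem mem_ker (k : ℕ) (c : ℕ → C) : c ∈ ker k c :=
  ⟨0, 0, by simp, by simp⟩

theorem shift_mem {k : ℕ} {c : ℕ → C} {f : ℕ → C} (hf : f ∈ ker k c) {i j : ℕ} (hj : j < k ^ i) :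
    (fun n => f (k ^ i * n + j)) ∈ ker k c := by
  obtain ⟨a, b, hb, rfl⟩ := hf
  refine ⟨a + i, k ^ a * j + b, ?_, ?_⟩
  · rw [pow_add]
    calc k ^ a * j + b < k ^ a * j + k ^ a := by omega
      _ = k ^ a * (j + 1) := by ring
      _ ≤ k ^ a * k ^ i := Nat.mul_le_mul_left _ hj
  · funext n
    show c _ = c _
    rw [pow_add]
    congr 1
    ring

open Classical in
/-- the operators on the kernel -/
noncomputable def op (k : ℕ) (c : ℕ → C) (i j : ℕ) : Function.End (ker k c) := fun f =>
  if h : j < k ^ i then ⟨fun n => f.1 (k ^ i * n + j), shift_mem f.2 h⟩ else f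

theorem op_apply {k : ℕ} {c : ℕ → C} {i j : ℕ} (h : j < k ^ i) (f : ker k c) (n : ℕ) :
    (op k c i j f).1 n = f.1 (k ^ i * n + j) := by
  unfold op
  rw [dif_pos h]

theorem op_add {k : ℕ} {c : ℕ → C} {i j i' j' : ℕ} (h : j < k ^ i) (h' : j' < k ^ i') :
    op k c (i + i') (k ^ i * j' + j) = op k c i' j' * op k c i j := by
  have h2 : k ^ i * j' + j < k ^ (i + i') := by
    rw [pow_add]
    calc k ^ i * j' + j < k ^ i * j' + k ^ i := by omega
      _ = k ^ i * (j' + 1) := by ring
      _ ≤ k ^ i * k ^ i' := Nat.mul_le_mul_left _ h'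
  funext f
  apply Subtype.ext
  funext n
  have e : (op k c i' j' * op k c i j) f = op k c i' j' (op k c i j f) := rfl
  have e2 : k ^ (i + i') * n + (k ^ i * j' + j) = k ^ i * (k ^ i' * n + j') + j := by
    rw [pow_add]
    ring
  rw [op_apply h2, e, op_apply h', op_apply h, e2]

theorem op_pow {k : ℕ} (hk : 2 ≤ k) {c : ℕ → C} (n : ℕ) : op k c 1 0 ^ n = op k c n 0 := by
  induction n with
  | zero =>
    rw [pow_zero]
    funext f
    apply Subtype.ext
    funext n
    rw [op_apply (by simp), pow_zero, one_mul, add_zero]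
    rfl
  | succ n ih =>
    rw [pow_succ', ih]
    have := op_add (k := k) (c := c) (i := n) (j := 0) (i' := 1) (j' := 0) (by positivity)
      (by positivity)
    rw [← this]
    simp

theorem exists_period {M : Type*} [Monoid M] [Finite M] (z : M) :
    ∃ P : ℕ, 0 < P ∧ z ^ P * z ^ P = z ^ P := by
  obtain ⟨a, b, hab, h⟩ := Finite.exists_ne_map_eq_of_infinite (fun n : ℕ => z ^ n)
  wlog hlt : a < b generalizing a b
  · exact this b a hab.symm h.symm (by omega)
  obtain ⟨d, rfl⟩ : ∃ d, b = a + d := ⟨b - a, by omega⟩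
  have hd : 0 < d := by omega
  have h1 : ∀ n, a ≤ n → z ^ (n + d) = z ^ n := by
    intro n hn
    obtain ⟨t, rfl⟩ : ∃ t, n = a + t := ⟨n - a, by omega⟩
    have : z ^ a = z ^ (a + d) := h
    rw [show a + t + d = (a + d) + t by ring, pow_add z (a + d), ← this, ← pow_add]
  have h2 : ∀ k n, a ≤ n → z ^ (n + d * k) = z ^ n := by
    intro k
    induction k with
    | zero => intro n _; simp
    | succ k ih =>
      intro n hn
      rw [show n + d * (k + 1) = (n + d * k) + d by ring, h1 _ (by omega), ih n hn]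
  refine ⟨d * (a + 1), by positivity, ?_⟩
  rw [← pow_add]
  exact h2 (a + 1) _ (by nlinarith)

theorem self_lt {k : ℕ} (hk : 2 ≤ k) {v n : ℕ} (h : v ≤ n) : v < k ^ n :=
  lt_of_lt_of_le (Nat.lt_two_pow_self) ((Nat.pow_le_pow_right (by norm_num) h).trans
    (Nat.pow_le_pow_left hk n))

theorem auto_rep {k : ℕ} (hk : 2 ≤ k) {c : ℕ → C} (h : (ker k c).Finite) :
    ∃ (T : Type v) (_ : Semigroup T) (_ : Finite T) (τ : ℕ → T) (F : T → C),
      (∀ n, c n = F (τ n)) ∧
      ∀ v : ℕ, 0 < v → ∃ M : ℕ, 0 < M ∧ ∀ u : ℕ, 0 < u → M ∣ u → τ (u + v) = τ u * τ v := by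
  have : Finite (ker k c) := h
  have hfin : Finite (Function.End (ker k c)) := inferInstanceAs (Finite (ker k c → ker k c))
  obtain ⟨P, hP, hPP⟩ := exists_period (op k c 1 0)
  rw [op_pow hk] at hPP
  have hidem : ∀ t, op k c (P * t) 0 * op k c P 0 = op k c P 0 := by
    intro t
    induction t with
    | zero =>
      rw [mul_zero, ← op_pow hk 0, pow_zero, one_mul]
    | succ t ih =>
      have := op_add (k := k) (c := c) (i := P) (j := 0) (i' := P * t) (j' := 0) (by positivity)
        (by positivity)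
      rw [mul_zero, add_zero] at this
      rw [show P * (t + 1) = P + P * t by ring, this, mul_assoc, hPP, ih]
  set τ : ℕ → Function.End (ker k c) := fun v => op k c (P * (v + 2)) v with hτ
  have hle : ∀ v s : ℕ, v ≤ s → v ≤ P * s := fun v s hs => by nlinarith
  have stab : ∀ v s : ℕ, v + 2 ≤ s → op k c (P * s) v = τ v := by
    intro v s hs
    obtain ⟨t, rfl⟩ : ∃ t, s = v + 2 + t := ⟨s - (v + 2), by omega⟩
    have h1 := op_add (k := k) (c := c) (i := P * (v + 2)) (j := v) (i' := P * t) (j' := 0)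
      (self_lt hk (hle _ _ (by omega))) (by positivity)
    have h2 := op_add (k := k) (c := c) (i := P * (v + 1)) (j := v) (i' := P) (j' := 0)
      (self_lt hk (hle _ _ (by omega))) (by positivity)
    rw [mul_zero, zero_add] at h1 h2
    rw [show P * (v + 2 + t) = P * (v + 2) + P * t by ring, h1]
    show op k c (P * t) 0 * op k c (P * (v + 2)) v = op k c (P * (v + 2)) v
    rw [show P * (v + 2) = P * (v + 1) + P by ring, h2, ← mul_assoc, hidem]
  refine ⟨Function.End (ker k c), inferInstance, hfin, τ, fun g => (g ⟨c, mem_ker k c⟩).1 0,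
    fun n => ?_, fun v _ => ⟨k ^ (P * (v + 2)), by positivity, fun u hu hdvd => ?_⟩⟩
  · show c n = (op k c (P * (n + 2)) n ⟨c, mem_ker k c⟩).1 0
    rw [op_apply (self_lt hk (hle _ _ (by omega)))]
    simp
  · obtain ⟨u', rfl⟩ := hdvd
    set ℓ := P * (v + 2) with hℓ
    have hu' : 0 < u' := Nat.pos_of_mul_pos_left hu |> fun h => by
      rcases Nat.eq_zero_or_pos u' with h0 | h0
      · subst h0; simp at hu
      · exact h0
    have hkl : v + 4 ≤ k ^ ℓ := by
      have h1 : v + 2 < 2 ^ (v + 2) := Nat.lt_two_pow_self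
      have h2 : 2 ^ (v + 2) ≤ k ^ ℓ := (Nat.pow_le_pow_right (by norm_num)
        (show v + 2 ≤ ℓ by rw [hℓ]; nlinarith)).trans (Nat.pow_le_pow_left hk ℓ)
      have h3 : v + 4 ≤ 2 ^ (v + 2) := by
        have h4 : v + 1 ≤ 2 ^ v := Nat.lt_two_pow_self
        rw [pow_add]
        omega
      omega
    set u := k ^ ℓ * u' with hu_def
    have hbig : v + (u' + 2) ≤ u := by
      have h1 : (v + 4) * u' ≤ u := Nat.mul_le_mul_right _ hkl
      nlinarith
    have hvl : v < k ^ ℓ := self_lt hk (hle _ _ (by omega))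
    have e1 : τ (u + v) = τ u' * τ v := by
      show op k c (P * (u + v + 2)) (u + v) = _
      have h1 := op_add (k := k) (c := c) (i := ℓ) (j := v) (i' := P * u) (j' := u') hvl
        (self_lt hk (hle _ _ (by omega)))
      rw [← hu_def] at h1
      rw [show P * (u + v + 2) = ℓ + P * u by rw [hℓ]; ring, h1, stab u' u (by omega)]
    have e2 : τ u = τ u' * op k c ℓ 0 := by
      show op k c (P * (u + 2)) u = _
      have h1 := op_add (k := k) (c := c) (i := ℓ) (j := 0) (i' := P * (u - v)) (j' := u')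
        (by positivity) (self_lt hk (hle _ _ (by omega)))
      rw [add_zero] at h1
      have h2 : P * (u + 2) = ℓ + P * (u - v) := by
        rw [hℓ, ← mul_add]
        congr 1
        omega
      rw [h2]
      nth_rewrite 2 [hu_def]
      rw [h1, stab u' (u - v) (by omega)]
    have e3 : op k c ℓ 0 * τ v = τ v := by
      have h1 := op_add (k := k) (c := c) (i := ℓ) (j := v) (i' := ℓ) (j' := 0) hvl (by positivity)
      rw [mul_zero, zero_add] at h1
      show op k c ℓ 0 * op k c ℓ v = _
      rw [← h1, show ℓ + ℓ = P * (v + 2 + (v + 2)) by rw [hℓ]; ring, stab v _ (by omega)]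
    rw [e1, e2, mul_assoc, e3]

end auto

/-- the right-zero semigroup -/
structure RZ (D : Type u) : Type u where
  /-- the underlying element -/
  val : D

instance (D : Type u) : Semigroup (RZ D) where
  mul _ b := b
  mul_assoc _ _ _ := rfl

theorem RZ.mul_eq {D : Type u} (a b : RZ D) : a * b = b := rfl

instance (D : Type u) [Finite D] : Finite (RZ D) :=
  Finite.of_injective RZ.val fun ⟨a⟩ ⟨b⟩ h => by simpa using h

section ipstar

open Hindman

theorem exists_mem_FS : ∀ (n : ℕ) (a : Stream' ℕ+) (F : Finset ℕ), F.Nonempty → (∀ i ∈ F, i < n) →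
    ∃ m ∈ FS a, (m : ℕ) = ∑ i ∈ F, (a.get i : ℕ) := by
  classical
  intro n
  induction n with
  | zero =>
    intro a F hF hlt
    obtain ⟨i, hi⟩ := hF
    exact absurd (hlt i hi) (by omega)
  | succ n ih =>
    intro a F hF hlt
    set F' : Finset ℕ := (F.erase 0).image Nat.pred with hF'
    have hinj : Set.InjOn Nat.pred (F.erase 0 : Finset ℕ) := by
      intro x hx y hy hxy
      simp only [Finset.coe_erase, Set.mem_sdiff, Finset.mem_coe, Set.mem_singleton_iff] at hx hy
      have : x - 1 = y - 1 := hxy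
      omega
    have hsum : ∑ i ∈ F.erase 0, (a.get i : ℕ) = ∑ i ∈ F', (a.tail.get i : ℕ) := by
      rw [hF', Finset.sum_image hinj]
      refine Finset.sum_congr rfl fun i hi => ?_
      rw [Finset.mem_erase] at hi
      obtain ⟨j, rfl⟩ : ∃ j, i = j + 1 := ⟨i - 1, by omega⟩
      rfl
    have hlt' : ∀ i ∈ F', i < n := by
      intro i hi
      obtain ⟨j, hj, rfl⟩ := Finset.mem_image.1 hi
      rw [Finset.mem_erase] at hj
      have := hlt j hj.2
      show j - 1 < n
      omega
    by_cases hne : F'.Nonempty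
    · obtain ⟨m, hm1, hm2⟩ := ih a.tail F' hne hlt'
      by_cases h0 : 0 ∈ F
      · refine ⟨a.head + m, FS.cons a m hm1, ?_⟩
        rw [← Finset.add_sum_erase F _ h0, hsum, ← hm2, PNat.add_coe]
      · refine ⟨m, FS.tail a m hm1, ?_⟩
        rw [hm2, ← hsum, Finset.erase_eq_of_notMem h0]
    · rw [Finset.not_nonempty_iff_eq_empty, hF', Finset.image_eq_empty] at hne
      have h0 : F = {0} := by
        rw [Finset.erase_eq_empty_iff] at hne
        rcases hne with h | h
        · exact absurd h hF.ne_empty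
        · exact h
      refine ⟨a.head, FS.head a, ?_⟩
      rw [h0, Finset.sum_singleton]

attribute [local instance] Ultrafilter.semigroup Ultrafilter.addSemigroup

theorem ipstar_eventually {S : Set ℕ} (hS : ∀ x : ℕ → ℕ, (∀ i, 0 < x i) →
    ∃ F : Finset ℕ, F.Nonempty ∧ ∑ i ∈ F, x i ∈ S) {r : Ultrafilter ℕ+} (hr : r + r = r) (w : ℕ+) :
    ∀ᶠ n : ℕ+ in (r : Filter ℕ+), ((w * n : ℕ+) : ℕ) ∈ S := by
  by_contra hcon
  rw [← Ultrafilter.eventually_not] at hcon
  obtain ⟨a, ha⟩ := exists_FS_of_large r hr {n : ℕ+ | ¬ ((w * n : ℕ+) : ℕ) ∈ S} hcon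
  obtain ⟨F, hF, hFS⟩ := hS (fun i => ((w * a.get i : ℕ+) : ℕ)) (fun i => (w * a.get i).pos)
  obtain ⟨m, hm1, hm2⟩ := exists_mem_FS (F.sup id + 1) a F hF (fun i hi => by
    have : i ≤ F.sup id := Finset.le_sup (f := id) hi
    omega)
  apply ha hm1
  rw [PNat.mul_coe, hm2, Finset.mul_sum]
  simpa using hFS

end ipstar

/-- the position of a small perturbation is determined by its sign -/
theorem phase (q β : ℝ) : ∃ δ : ℝ, 0 < δ ∧ ∀ t t' : ℝ, |t| < δ → |t'| < δ →
    SignType.sign t = SignType.sign t' →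
    SignType.sign (Int.fract (q + t) - β) = SignType.sign (Int.fract (q + t') - β) := by
  set f := Int.fract q with hf
  have hf0 : 0 ≤ f := Int.fract_nonneg q
  have hf1 : f < 1 := Int.fract_lt_one q
  have hfr : ∀ t : ℝ, Int.fract (q + t) = Int.fract (f + t) := by
    intro t
    have : q + t = (f + t) + (⌊q⌋ : ℤ) := by
      rw [hf, Int.fract]; ring
    rw [this, Int.fract_add_intCast]
  set g : ℝ → SignType := fun t => SignType.sign (Int.fract (q + t) - β) with hg
  -- positive side
  have hpos : ∃ δ : ℝ, 0 < δ ∧ ∀ t : ℝ, 0 < t → t < δ →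
      g t = if β ≤ f then 1 else -1 := by
    by_cases h : β ≤ f
    · refine ⟨1 - f, by linarith, fun t ht1 ht2 => ?_⟩
      rw [if_pos h, hg]
      simp only
      rw [hfr, Int.fract_eq_self.2 ⟨by linarith, by linarith⟩, sign_pos]
      linarith
    · refine ⟨min (1 - f) (β - f), lt_min (by linarith) (by linarith), fun t ht1 ht2 => ?_⟩
      rw [lt_min_iff] at ht2
      rw [if_neg h, hg]
      simp only
      rw [hfr, Int.fract_eq_self.2 ⟨by linarith, by linarith⟩, sign_neg]
      linarith
  have hneg : ∃ δ : ℝ, 0 < δ ∧ ∃ σ : SignType, ∀ t : ℝ, t < 0 → -δ < t → g t = σ := by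
    rcases eq_or_lt_of_le hf0 with h0 | h0
    · -- `f = 0`
      by_cases h : β < 1
      · refine ⟨min 1 (1 - β), lt_min one_pos (by linarith), 1, fun t ht1 ht2 => ?_⟩
        have h2 : -1 < t := by
          have := min_le_left (1 : ℝ) (1 - β); linarith
        have h3 : -(1 - β) < t := by
          have := min_le_right (1 : ℝ) (1 - β); linarith
        rw [hg]
        simp only
        have e : f + t = (1 + t) + ((-1 : ℤ) : ℝ) := by push_cast; rw [← h0]; ring
        rw [hfr, e, Int.fract_add_intCast, Int.fract_eq_self.2 ⟨by linarith, by linarith⟩, sign_pos]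
        linarith
      · refine ⟨1, one_pos, -1, fun t ht1 ht2 => ?_⟩
        rw [hg]
        simp only
        have e : f + t = (1 + t) + ((-1 : ℤ) : ℝ) := by push_cast; rw [← h0]; ring
        rw [hfr, e, Int.fract_add_intCast, Int.fract_eq_self.2 ⟨by linarith, by linarith⟩, sign_neg]
        linarith
    · by_cases h : f ≤ β
      · refine ⟨f, h0, -1, fun t ht1 ht2 => ?_⟩
        rw [hg]
        simp only
        rw [hfr, Int.fract_eq_self.2 ⟨by linarith, by linarith⟩, sign_neg]
        linarith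
      · refine ⟨min f (f - β), lt_min h0 (by linarith), 1, fun t ht1 ht2 => ?_⟩
        have h2 : -f < t := by
          have := min_le_left f (f - β); linarith
        have h3 : -(f - β) < t := by
          have := min_le_right f (f - β); linarith
        rw [hg]
        simp only
        rw [hfr, Int.fract_eq_self.2 ⟨by linarith, by linarith⟩, sign_pos]
        linarith
  obtain ⟨δ₁, hδ₁, h1⟩ := hpos
  obtain ⟨δ₂, hδ₂, σ, h2⟩ := hneg
  refine ⟨min δ₁ δ₂, lt_min hδ₁ hδ₂, fun t t' ht ht' hs => ?_⟩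
  rw [lt_min_iff, abs_lt, abs_lt] at ht ht'
  show g t = g t'
  rcases lt_trichotomy t 0 with h | h | h
  · have h' : t' < 0 := by
      rw [sign_neg h] at hs
      exact sign_eq_neg_one_iff.1 hs.symm
    rw [h2 t h ht.2.1, h2 t' h' ht'.2.1]
  · subst h
    rw [sign_zero] at hs
    have h' : t' = 0 := sign_eq_zero_iff.1 hs.symm
    rw [h']
  · have h' : 0 < t' := by
      rw [sign_pos h] at hs
      exact sign_eq_one_iff.1 hs.symm
    rw [h1 t h ht.1.2, h1 t' h' ht'.1.2]

end Pool.Agent.TH833.SP
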