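import Mathlib

set_option autoImplicit false

/-!
# Sums of products along an ultrafilter

Let `τ` be a map from the positive integers to a finite semigroup which is multiplicative on sums
`w n + v` for almost all `n` with respect to every idempotent of `(βℕ, +)`.  There is an infinite
sequence all of whose sums of products with different maxima have the same value of `τ` and
almost integral values, all on the same side, of given polynomials.
-/

open Filter Polynomial Topology

namespace Pool.Agent.TH833.SP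

attribute [local instance] Ultrafilter.semigroup Ultrafilter.addSemigroup

/-- signed distance to the nearest integer -/
noncomputable def sd (x : ℝ) : ℝ := x - round x

theorem abs_sd (x : ℝ) : |sd x| = ‖(x : UnitAddCircle)‖ := by
  rw [UnitAddCircle.norm_eq, sd]

theorem sd_le (x : ℝ) : |sd x| ≤ 1 / 2 := by
  unfold sd
  exact abs_sub_round x

/-- `sd (x + y) = sd x + sd y` if the right side is small -/
theorem sd_add {x y : ℝ} (h : |sd x + sd y| < 1 / 2) : sd (x + y) = sd x + sd y := by
  unfold sd at *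
  have e : x + y = (x - round x + (y - round y)) + ((round x + round y : ℤ) : ℝ) := by
    push_cast; ring
  have h0 : round (x - round x + (y - round y)) = 0 := by
    rw [round_eq_zero_iff]
    rw [abs_lt] at h
    constructor <;> linarith [h.1, h.2]
  rw [e, round_add_intCast, h0]
  push_cast
  ring

theorem idem_eventually {p : Ultrafilter ℕ+} (hp : p + p = p) (P : ℕ+ → Prop) :
    (∀ᶠ n in (p : Filter ℕ+), P n) ↔
      ∀ᶠ m in (p : Filter ℕ+), ∀ᶠ n in (p : Filter ℕ+), P (m + n) := by
  conv_lhs => rw [← hp]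
  exact Ultrafilter.eventually_add p p P

theorem idem_eventually_mul {p : Ultrafilter ℕ+} (hp : p * p = p) (P : ℕ+ → Prop) :
    (∀ᶠ n in (p : Filter ℕ+), P n) ↔
      ∀ᶠ m in (p : Filter ℕ+), ∀ᶠ n in (p : Filter ℕ+), P (m * n) := by
  conv_lhs => rw [← hp]
  exact Ultrafilter.eventually_mul p p P

/-- a function with finitely many values is constant almost everywhere -/
theorem ultra_const {α β : Type*} [Finite β] (p : Ultrafilter α) (f : α → β) :
    ∃ b, ∀ᶠ a in (p : Filter α), f a = b := by
  by_contra hcon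
  have h : ∀ b, ∀ᶠ a in (p : Filter α), f a ≠ b := fun b => by
    have h1 : ¬ ∀ᶠ a in (p : Filter α), f a = b := fun hb => hcon ⟨b, hb⟩
    rwa [← Ultrafilter.eventually_not] at h1
  have h2 : ∀ᶠ a in (p : Filter α), ∀ b, f a ≠ b := eventually_all.2 h
  obtain ⟨a, ha⟩ := h2.exists
  exact ha (f a) rfl

/-- polynomial recurrence along additive idempotents -/
theorem poly_tendsto {p : Ultrafilter ℕ+} (hp : p + p = p) :
    ∀ (d : ℕ) (R : ℝ[X]), R.natDegree ≤ d → R.eval 0 = 0 →
      Tendsto (fun n : ℕ+ => ((R.eval (n : ℝ) : ℝ) : UnitAddCircle)) p (𝓝 0) := by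
  intro d
  induction d with
  | zero =>
    intro R hd h0
    have : R = 0 := by
      rw [Polynomial.eq_C_of_natDegree_le_zero hd] at h0 ⊢
      simpa using h0
    subst this
    simp
  | succ d ih =>
    intro R hd h0
    set f : ℕ+ → UnitAddCircle := fun n => ((R.eval (n : ℝ) : ℝ) : UnitAddCircle) with hf
    obtain ⟨L, -, hL⟩ := (isCompact_univ (X := UnitAddCircle)).ultrafilter_le_nhds
      (p.map f) (by simp)
    have hL' : Tendsto f p (𝓝 L) := hL
    have key : ∀ m : ℕ+, Tendsto (fun n : ℕ+ => f (m + n)) p (𝓝 (f m + L)) := by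
      intro m
      set Cm : ℝ[X] := R.comp (X + C (m : ℝ)) - R - C (R.eval (m : ℝ)) with hCm
      have hC0 : Cm.eval 0 = 0 := by simp [hCm, h0]
      have hCd : Cm.natDegree ≤ d := by
        by_cases hR : R.natDegree = 0
        · have hRC : R = 0 := by
            rw [Polynomial.eq_C_of_natDegree_eq_zero hR] at h0 ⊢
            simpa using h0
          simp [hCm, hRC]
        · have hR' : 0 < R.natDegree := Nat.pos_of_ne_zero hR
          have hdeg : (R.comp (X + C (m : ℝ))).natDegree = R.natDegree := by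
            rw [Polynomial.natDegree_comp, Polynomial.natDegree_X_add_C, mul_one]
          have hlead : (R.comp (X + C (m : ℝ))).leadingCoeff = R.leadingCoeff := by
            rw [Polynomial.leadingCoeff_comp (by rw [Polynomial.natDegree_X_add_C]; exact one_ne_zero),
              Polynomial.leadingCoeff_X_add_C, one_pow, mul_one]
          have hlt : (R.comp (X + C (m : ℝ)) - R).natDegree < R.natDegree := by
            have hRne : R ≠ 0 := by
              rintro rfl
              simp at hR
            by_cases hz : R.comp (X + C (m : ℝ)) - R = 0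
            · rw [hz]; simpa using hR'
            · have h1 : R.comp (X + C (m : ℝ)) ≠ 0 := by
                intro h
                rw [h] at hdeg
                simp at hdeg
                omega
              have := Polynomial.degree_sub_lt_left (p := R.comp (X + C (m : ℝ))) (q := R)
                (by rw [Polynomial.degree_eq_natDegree h1, Polynomial.degree_eq_natDegree hRne, hdeg])
                h1 hlead
              rw [Polynomial.degree_eq_natDegree hz, Polynomial.degree_eq_natDegree h1, hdeg] at this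
              exact_mod_cast this
          calc Cm.natDegree ≤ max (R.comp (X + C (m : ℝ)) - R).natDegree
                (C (R.eval (m : ℝ))).natDegree := Polynomial.natDegree_sub_le _ _
            _ ≤ d := by
              rw [Polynomial.natDegree_C]
              simp only [max_le_iff]
              omega
      have h1 := ih Cm hCd hC0
      have h2 : Tendsto (fun n : ℕ+ => f m + f n +
          (((Cm.eval (n : ℝ) : ℝ)) : UnitAddCircle)) p (𝓝 (f m + L + 0)) :=
        (tendsto_const_nhds.add hL').add h1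
      rw [add_zero] at h2
      refine h2.congr (fun n => ?_)
      simp only [hf, hCm, ← AddCircle.coe_add]
      congr 1
      simp only [eval_sub, eval_comp, eval_add, eval_X, eval_C, PNat.add_coe, Nat.cast_add]
      rw [add_comm (n : ℝ) (m : ℝ)]
      ring
    have hLL : L + L = L := by
      by_contra hne
      obtain ⟨U, W, hU, hW, hLU, hLW, hdisj⟩ := t2_separation hne
      -- `f m + L ∈ U` for almost all `m`
      have h1 : ∀ᶠ m in (p : Filter ℕ+), f m + L ∈ U :=
        (hL'.add tendsto_const_nhds : Tendsto (fun m => f m + L) p (𝓝 (L + L))).eventually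
          (hU.mem_nhds hLU)
      have h2 : ∀ᶠ m in (p : Filter ℕ+), f m ∈ W := hL'.eventually (hW.mem_nhds hLW)
      rw [idem_eventually hp] at h2
      obtain ⟨m, hm1, hm2⟩ := (h1.and h2).exists
      have h3 : ∀ᶠ n in (p : Filter ℕ+), f (m + n) ∈ U := (key m).eventually (hU.mem_nhds hm1)
      obtain ⟨n, hn1, hn2⟩ := (h3.and hm2).exists
      exact Set.disjoint_left.1 hdisj hn1 hn2
    have : L = 0 := by simpa using hLL
    rwa [this] at hL'

theorem poly_small {p : Ultrafilter ℕ+} (hp : p + p = p) (R : ℝ[X]) (h0 : R.eval 0 = 0) {ε : ℝ}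
    (hε : 0 < ε) : ∀ᶠ n : ℕ+ in (p : Filter ℕ+), |sd (R.eval (n : ℝ))| < ε := by
  have h := (poly_tendsto hp R.natDegree R le_rfl h0)
  have h1 := h.norm
  rw [norm_zero] at h1
  filter_upwards [h1.eventually (gt_mem_nhds hε)] with n hn
  rwa [abs_sd]

theorem idem_dvd {p : Ultrafilter ℕ+} (hp : p + p = p) (M : ℕ+) :
    ∀ᶠ n : ℕ+ in (p : Filter ℕ+), M ∣ n := by
  have : NeZero (M : ℕ) := ⟨M.pos.ne'⟩
  obtain ⟨c, hc⟩ := ultra_const p (fun n : ℕ+ => ((n : ℕ) : ZMod M))
  have h2 := (idem_eventually hp _).1 hc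
  obtain ⟨m, hm1, hm2⟩ := (hc.and h2).exists
  obtain ⟨n, hn1, hn2⟩ := (hc.and hm2).exists
  have : c = 0 := by
    simp only [PNat.add_coe, Nat.cast_add] at hn2
    rw [hm1, hn1] at hn2
    simpa using hn2
  filter_upwards [hc] with n hn
  rw [this, ZMod.natCast_eq_zero_iff] at hn
  exact PNat.dvd_iff.2 hn

section main

variable {T : Type*} [Semigroup T] [Finite T]

/-- the closed set of good ultrafilters -/
def J (τ : ℕ+ → T) : Set (Ultrafilter ℕ+) :=
  {q | (∀ w : ℕ+, ∀ᶠ n in (q : Filter ℕ+), τ (w * n) * τ (w * n) = τ (w * n)) ∧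
    (∀ w v : ℕ+, ∀ᶠ n in (q : Filter ℕ+), τ (w * n + v) = τ (w * n) * τ v) ∧
    (∀ M : ℕ+, ∀ᶠ n in (q : Filter ℕ+), M ∣ n) ∧
    (∀ R : ℝ[X], R.eval 0 = 0 → ∀ ε : ℝ, 0 < ε →
      ∀ᶠ n : ℕ+ in (q : Filter ℕ+), |sd (R.eval (n : ℝ))| < ε)}

theorem isClosed_basic (P : ℕ+ → Prop) :
    IsClosed {q : Ultrafilter ℕ+ | ∀ᶠ n in (q : Filter ℕ+), P n} :=
  ultrafilter_isClosed_basic {n | P n}

omit [Finite T] in
theorem J_closed (τ : ℕ+ → T) : IsClosed (J τ) := by
  have e : J τ = (⋂ w : ℕ+, {q : Ultrafilter ℕ+ | ∀ᶠ n in (q : Filter ℕ+),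
        τ (w * n) * τ (w * n) = τ (w * n)}) ∩
      ((⋂ w : ℕ+, ⋂ v : ℕ+, {q : Ultrafilter ℕ+ | ∀ᶠ n in (q : Filter ℕ+),
        τ (w * n + v) = τ (w * n) * τ v}) ∩
      ((⋂ M : ℕ+, {q : Ultrafilter ℕ+ | ∀ᶠ n in (q : Filter ℕ+), M ∣ n}) ∩
      (⋂ R : ℝ[X], ⋂ _ : R.eval 0 = 0, ⋂ ε : ℝ, ⋂ _ : 0 < ε,
        {q : Ultrafilter ℕ+ | ∀ᶠ n : ℕ+ in (q : Filter ℕ+), |sd (R.eval (n : ℝ))| < ε}))) := by
    ext q
    simp only [J, Set.mem_ofPred_eq, Set.mem_inter_iff, Set.mem_iInter]
  rw [e]
  refine IsClosed.inter (isClosed_iInter fun w => isClosed_basic _) (IsClosed.inter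
    (isClosed_iInter fun w => isClosed_iInter fun v => isClosed_basic _) (IsClosed.inter
    (isClosed_iInter fun M => isClosed_basic _) (isClosed_iInter fun R => isClosed_iInter fun _ =>
      isClosed_iInter fun ε => isClosed_iInter fun _ => isClosed_basic _)))

omit [Finite T] in
theorem J_mul (τ : ℕ+ → T) {q q' : Ultrafilter ℕ+} (hq' : q' ∈ J τ) : q * q' ∈ J τ := by
  obtain ⟨h1, h2, h3, h4⟩ := hq'
  refine ⟨fun w => ?_, fun w v => ?_, fun M => ?_, fun R hR ε hε => ?_⟩
  · rw [Ultrafilter.eventually_mul]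
    refine Eventually.of_forall fun m => ?_
    filter_upwards [h1 (w * m)] with n hn
    rw [← mul_assoc]
    exact hn
  · rw [Ultrafilter.eventually_mul]
    refine Eventually.of_forall fun m => ?_
    filter_upwards [h2 (w * m) v] with n hn
    rw [← mul_assoc]
    exact hn
  · rw [Ultrafilter.eventually_mul]
    refine Eventually.of_forall fun m => ?_
    filter_upwards [h3 M] with n hn
    exact Dvd.dvd.mul_left hn m
  · rw [Ultrafilter.eventually_mul]
    refine Eventually.of_forall fun m => ?_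
    have h5 := h4 (R.comp (C (m : ℝ) * X)) (by simp [hR]) ε hε
    filter_upwards [h5] with n hn
    rw [eval_comp] at hn
    simpa using hn

theorem J_nonempty (τ : ℕ+ → T) (hτ : ∀ r : Ultrafilter ℕ+, r + r = r → ∀ w v : ℕ+,
    ∀ᶠ n in (r : Filter ℕ+), τ (w * n + v) = τ (w * n) * τ v) : (J τ).Nonempty := by
  obtain ⟨r, hr⟩ := exists_idempotent_of_compact_t2_of_continuous_add_left
    (M := Ultrafilter ℕ+) (@Ultrafilter.continuous_add_left ℕ+ _)
  refine ⟨r, fun w => ?_, hτ r hr, idem_dvd hr, fun R hR ε hε => poly_small hr R hR hε⟩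
  obtain ⟨b, hb⟩ := ultra_const r (fun n => τ (w * n))
  have h1 := (idem_eventually hr _).1 hb
  have hbb : b * b = b := by
    obtain ⟨m, hm1, hm2⟩ := (hb.and h1).exists
    obtain ⟨n, hn1, hn2, hn3⟩ := (hb.and (hm2.and (hτ r hr w (w * m)))).exists
    have e : w * (m + n) = w * n + w * m := by rw [mul_add, add_comm]
    rw [e, hn3] at hn2
    rw [hm1, hn1] at hn2
    exact hn2
  filter_upwards [hb] with n hn
  rw [hn, hbb]

theorem exists_good (τ : ℕ+ → T) (hτ : ∀ r : Ultrafilter ℕ+, r + r = r → ∀ w v : ℕ+,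
    ∀ᶠ n in (r : Filter ℕ+), τ (w * n + v) = τ (w * n) * τ v) :
    ∃ p ∈ J τ, p * p = p :=
  exists_idempotent_in_compact_subsemigroup (@Ultrafilter.continuous_mul_left ℕ+ _) (J τ)
    (J_nonempty τ hτ) (J_closed τ).isCompact (fun _ _ _ hy => J_mul τ hy)

end main

end Pool.Agent.TH833.SP
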