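import Pool.Agent.TH833.SP.Auto

set_option autoImplicit false

/-!
# The general construction of a sequence
-/

open Filter Polynomial Topology

namespace Pool.Agent.TH833.SP.Gen

attribute [local instance] Ultrafilter.semigroup Ultrafilter.addSemigroup

/-- the invariant of the construction: `st.1` is the set of products, `st.2.1` the set of sums of
products and `st.2.2` the last element -/
def Inv (G G' : ℕ+ → Prop)
    (p : Ultrafilter ℕ+) (st : Finset ℕ+ × Finset ℕ+ × ℕ+) : Prop :=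
  1 ∈ st.1 ∧ (∀ a ∈ st.1, ∀ᶠ m in (p : Filter ℕ+), G (a * m)) ∧
    ∀ v ∈ st.2.1, G' v

/-- the next state -/
def next (st : Finset ℕ+ × Finset ℕ+ × ℕ+) (x : ℕ+) : Finset ℕ+ × Finset ℕ+ × ℕ+ :=
  (st.1 ∪ st.1.image (fun a => a * x),
    (st.2.1 ∪ st.1.image (fun a => a * x)) ∪
      (st.1 ×ˢ st.2.1).image (fun q => q.1 * x + q.2), x)

theorem step {G G' : ℕ+ → Prop} {p : Ultrafilter ℕ+} (hpp : p * p = p)
    (hlarge : ∀ K : ℕ+, ∀ᶠ n in (p : Filter ℕ+), K < n)
    (hprod : ∀ a : ℕ+, (∀ᶠ m in (p : Filter ℕ+), G (a * m)) →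
      ∀ᶠ x in (p : Filter ℕ+), G' (a * x))
    (hsum : ∀ a v : ℕ+, (∀ᶠ m in (p : Filter ℕ+), G (a * m)) → G' v →
      ∀ᶠ x in (p : Filter ℕ+), G' (a * x + v))
    (st : Finset ℕ+ × Finset ℕ+ × ℕ+) (hst : Inv G G' p st) :
    ∃ x : ℕ+, st.2.2 < x ∧ Inv G G' p (next st x) := by
  obtain ⟨h1, h2, h3⟩ := hst
  have ha : ∀ᶠ x in (p : Filter ℕ+), ∀ a ∈ st.1, G' (a * x) :=
    (eventually_all_finset st.1).2 fun a ha => hprod a (h2 a ha)
  have hb : ∀ᶠ x in (p : Filter ℕ+), ∀ a ∈ st.1, ∀ v ∈ st.2.1, G' (a * x + v) :=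
    (eventually_all_finset st.1).2 fun a ha => (eventually_all_finset st.2.1).2 fun v hv =>
      hsum a v (h2 a ha) (h3 v hv)
  have hc : ∀ᶠ x in (p : Filter ℕ+), ∀ a ∈ st.1,
      ∀ᶠ m in (p : Filter ℕ+), G (a * x * m) := by
    refine (eventually_all_finset st.1).2 fun a ha => ?_
    have := (idem_eventually_mul hpp _).1 (h2 a ha)
    filter_upwards [this] with x hx
    filter_upwards [hx] with m hm
    rwa [mul_assoc]
  obtain ⟨x, hx1, hx2, hx3, hx4⟩ := (ha.and (hb.and (hc.and (hlarge st.2.2)))).exists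
  refine ⟨x, hx4, Finset.mem_union_left _ h1, fun a ha => ?_, fun v hv => ?_⟩
  · rcases Finset.mem_union.1 ha with ha | ha
    · exact h2 a ha
    · obtain ⟨b, hb, rfl⟩ := Finset.mem_image.1 ha
      exact hx3 b hb
  · rcases Finset.mem_union.1 hv with hv | hv
    · rcases Finset.mem_union.1 hv with hv | hv
      · exact h3 v hv
      · obtain ⟨b, hb, rfl⟩ := Finset.mem_image.1 hv
        exact hx1 b hb
    · obtain ⟨⟨b, w⟩, hb, rfl⟩ := Finset.mem_image.1 hv
      rw [Finset.mem_product] at hb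
      exact hx2 b hb.1 w hb.2

theorem exists_seq {G G' : ℕ+ → Prop} {p : Ultrafilter ℕ+} (hpp : p * p = p)
    (hlarge : ∀ K : ℕ+, ∀ᶠ n in (p : Filter ℕ+), K < n)
    (hprod : ∀ a : ℕ+, (∀ᶠ m in (p : Filter ℕ+), G (a * m)) →
      ∀ᶠ x in (p : Filter ℕ+), G' (a * x))
    (hsum : ∀ a v : ℕ+, (∀ᶠ m in (p : Filter ℕ+), G (a * m)) → G' v →
      ∀ᶠ x in (p : Filter ℕ+), G' (a * x + v))
    (hσ : ∀ᶠ m in (p : Filter ℕ+), G m) (K : ℕ+) :
    ∃ x : ℕ → ℕ+, StrictMono x ∧ K < x 0 ∧ ∀ 𝓕 : Finset (Finset ℕ), 𝓕.Nonempty →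
      (∀ F ∈ 𝓕, F.Nonempty) → (∀ F ∈ 𝓕, ∀ H ∈ 𝓕, F.max = H.max → F = H) →
      ∃ v : ℕ+, (v : ℕ) = ∑ F ∈ 𝓕, ∏ i ∈ F, (x i : ℕ) ∧ G' v := by
  classical
  have h0 : Inv G G' p ({1}, ∅, K) := by
    refine ⟨Finset.mem_singleton_self 1, fun a ha => ?_, fun v hv => ?_⟩
    · rw [Finset.mem_singleton] at ha
      subst ha
      simpa using hσ
    · simp at hv
  have hstep : ∀ st : {st : Finset ℕ+ × Finset ℕ+ × ℕ+ // Inv G G' p st}, ∃ x : ℕ+,
      st.1.2.2 < x ∧ Inv G G' p (next st.1 x) :=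
    fun st => step hpp hlarge hprod hsum st.1 st.2
  choose f hf1 hf2 using hstep
  set st : ℕ → {st : Finset ℕ+ × Finset ℕ+ × ℕ+ // Inv G G' p st} :=
    fun n => (fun s => (⟨next s.1 (f s), hf2 s⟩ :
      {st : Finset ℕ+ × Finset ℕ+ × ℕ+ // Inv G G' p st}))^[n] ⟨({1}, ∅, K), h0⟩ with hst
  have hsucc : ∀ n, (st (n + 1)).1 = next (st n).1 (f (st n)) := by
    intro n
    simp only [hst, Function.iterate_succ_apply']
  set x : ℕ → ℕ+ := fun n => f (st n) with hx
  have hlast : ∀ n, (st (n + 1)).1.2.2 = x n := by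
    intro n; rw [hsucc]; rfl
  have hP : ∀ n, ∀ F : Finset ℕ, (∀ i ∈ F, i < n) → (∏ i ∈ F, x i) ∈ (st n).1.1 := by
    intro n
    induction n with
    | zero =>
      intro F hF
      have : F = ∅ := Finset.eq_empty_of_forall_notMem fun i hi => by simpa using hF i hi
      subst this
      rw [Finset.prod_empty]
      exact (st 0).2.1
    | succ n ih =>
      intro F hF
      rw [hsucc]
      by_cases hn : n ∈ F
      · rw [← Finset.prod_erase_mul F x hn]
        refine Finset.mem_union_right _ (Finset.mem_image.2 ⟨_, ih (F.erase n) ?_, rfl⟩)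
        intro i hi
        rw [Finset.mem_erase] at hi
        have := hF i hi.2
        omega
      · refine Finset.mem_union_left _ (ih F fun i hi => ?_)
        have := hF i hi
        have : i ≠ n := fun h => hn (h ▸ hi)
        omega
  have hV : ∀ n, ∀ 𝓕 : Finset (Finset ℕ), 𝓕.Nonempty → (∀ F ∈ 𝓕, F.Nonempty) →
      (∀ F ∈ 𝓕, ∀ i ∈ F, i < n) → (∀ F ∈ 𝓕, ∀ H ∈ 𝓕, F.max = H.max → F = H) →
      ∃ v ∈ (st n).1.2.1, (v : ℕ) = ∑ F ∈ 𝓕, ∏ i ∈ F, (x i : ℕ) := by
    intro n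
    induction n with
    | zero =>
      intro 𝓕 hne hF hlt _
      obtain ⟨F, hF'⟩ := hne
      obtain ⟨i, hi⟩ := hF F hF'
      exact absurd (hlt F hF' i hi) (by omega)
    | succ n ih =>
      intro 𝓕 hne hF hlt hmax
      by_cases hn : ∃ F ∈ 𝓕, n ∈ F
      · obtain ⟨F, hF1, hF2⟩ := hn
        have hFm : ∀ H ∈ 𝓕, n ∈ H → H.max = (n : WithBot ℕ) := by
          intro H hH hnH
          apply le_antisymm
          · apply Finset.max_le
            intro i hi
            have := hlt H hH i hi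
            exact WithBot.coe_le_coe.2 (Nat.lt_succ_iff.1 this)
          · exact Finset.le_max hnH
        have hother : ∀ H ∈ 𝓕.erase F, ∀ i ∈ H, i < n := by
          intro H hH i hi
          rw [Finset.mem_erase] at hH
          have h1 := hlt H hH.2 i hi
          have h2 : i ≠ n := by
            rintro rfl
            exact hH.1 (hmax H hH.2 F hF1 ((hFm H hH.2 hi).trans (hFm F hF1 hF2).symm))
          omega
        have hprod : (∏ i ∈ F.erase n, x i) ∈ (st n).1.1 := by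
          refine hP n _ fun i hi => ?_
          rw [Finset.mem_erase] at hi
          have := hlt F hF1 i hi.2
          omega
        have hprod' : ∏ i ∈ F, (x i : ℕ) = (((∏ i ∈ F.erase n, x i) * x n : ℕ+) : ℕ) := by
          rw [Finset.prod_erase_mul F x hF2]
          exact (map_prod PNat.coeMonoidHom x F).symm
        rw [← Finset.add_sum_erase 𝓕 _ hF1, hprod']
        by_cases hemp : (𝓕.erase F).Nonempty
        · obtain ⟨v, hv1, hv2⟩ := ih (𝓕.erase F) hemp
            (fun H hH => hF H (Finset.mem_of_mem_erase hH)) hother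
            (fun H hH H' hH' => hmax H (Finset.mem_of_mem_erase hH) H' (Finset.mem_of_mem_erase hH'))
          refine ⟨(∏ i ∈ F.erase n, x i) * x n + v, ?_, ?_⟩
          · rw [hsucc]
            exact Finset.mem_union_right _ (Finset.mem_image.2
              ⟨(∏ i ∈ F.erase n, x i, v), Finset.mem_product.2 ⟨hprod, hv1⟩, rfl⟩)
          · rw [PNat.add_coe, hv2]
        · rw [Finset.not_nonempty_iff_eq_empty] at hemp
          refine ⟨(∏ i ∈ F.erase n, x i) * x n, ?_, ?_⟩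
          · rw [hsucc]
            exact Finset.mem_union_left _ (Finset.mem_union_right _
              (Finset.mem_image.2 ⟨_, hprod, rfl⟩))
          · rw [hemp, Finset.sum_empty, add_zero]
      · push Not at hn
        obtain ⟨v, hv1, hv2⟩ := ih 𝓕 hne hF (fun F hF' i hi => by
          have h1 := hlt F hF' i hi
          have h2 : i ≠ n := fun h => hn F hF' (h ▸ hi)
          omega) hmax
        refine ⟨v, ?_, hv2⟩
        rw [hsucc]
        exact Finset.mem_union_left _ (Finset.mem_union_left _ hv1)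
  refine ⟨x, strictMono_nat_of_lt_succ fun n => ?_, ?_, fun 𝓕 hne hF hmax => ?_⟩
  · have := hf1 (st (n + 1))
    rwa [hlast n] at this
  · exact hf1 (st 0)
  · obtain ⟨N, hN⟩ : ∃ N, ∀ F ∈ 𝓕, ∀ i ∈ F, i < N := by
      refine ⟨(𝓕.sup id).sup id + 1, fun F hF' i hi => ?_⟩
      have h1 : i ∈ 𝓕.sup id := Finset.mem_sup.2 ⟨F, hF', hi⟩
      have h2 : i ≤ (𝓕.sup id).sup id := Finset.le_sup (f := id) h1
      omega
    obtain ⟨v, hv1, hv2⟩ := hV N 𝓕 hne hF hN hmax
    exact ⟨v, hv2, (st N).2.2.2 v hv1⟩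


end Pool.Agent.TH833.SP.Gen
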