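import Pool.Agent.TH833.SP.Core

set_option autoImplicit false

/-!
# The sequence
-/

open Filter Polynomial Topology

namespace Pool.Agent.TH833.SP

attribute [local instance] Ultrafilter.semigroup Ultrafilter.addSemigroup

theorem sd_eq_zero_iff {x : ℝ} : sd x = 0 ↔ ∃ z : ℤ, x = z := by
  unfold sd
  constructor
  · intro h
    exact ⟨round x, by linarith⟩
  · rintro ⟨z, rfl⟩
    simp

/-- A real polynomial with infinitely many integral values at positive integers is rational. -/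
theorem rational_of_infinite (R : ℝ[X]) (h : {n : ℕ | ∃ z : ℤ, R.eval (n : ℝ) = z}.Infinite) :
    ∃ b : ℤ, b ≠ 0 ∧ ∃ R' : ℤ[X], ∀ x : ℤ, (b : ℝ) * R.eval (x : ℝ) = ((R'.eval x : ℤ) : ℝ) := by
  classical
  obtain ⟨s, hs, hcard⟩ := h.exists_subset_card_eq (R.natDegree + 1)
  choose! z hz using fun (n : ℕ) (hn : n ∈ {n : ℕ | ∃ z : ℤ, R.eval (n : ℝ) = z}) => hn
  set RQ : ℚ[X] := Lagrange.interpolate s (fun n : ℕ => (n : ℚ)) (fun n => (z n : ℚ)) with hRQ
  have hinj : Set.InjOn (fun n : ℕ => (n : ℚ)) s := fun a _ b _ hab => Nat.cast_injective hab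
  have hdeg : RQ.degree < s.card := Lagrange.degree_interpolate_lt _ hinj
  have hev : ∀ n ∈ s, RQ.eval (n : ℚ) = z n := fun n hn =>
    Lagrange.eval_interpolate_at_node (fun n => (z n : ℚ)) hinj hn
  have hmap : R = RQ.map (algebraMap ℚ ℝ) := by
    refine Polynomial.eq_of_degrees_lt_of_eval_finset_eq (s.image (fun n : ℕ => (n : ℝ))) ?_ ?_ ?_
    · rw [Finset.card_image_of_injective _ Nat.cast_injective, hcard]
      exact lt_of_le_of_lt Polynomial.degree_le_natDegree (by exact_mod_cast Nat.lt_succ_self _)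
    · rw [Finset.card_image_of_injective _ Nat.cast_injective, Polynomial.degree_map]
      exact hdeg
    · intro x hx
      obtain ⟨n, hn, rfl⟩ := Finset.mem_image.1 hx
      have h1 := hz n (hs hn)
      have h2 : (RQ.map (algebraMap ℚ ℝ)).eval ((n : ℝ)) = ((RQ.eval (n : ℚ) : ℚ) : ℝ) := by
        have : (n : ℝ) = algebraMap ℚ ℝ (n : ℚ) := by simp
        rw [this, Polynomial.eval_map_algebraMap, Polynomial.aeval_algebraMap_apply]
        simp
      rw [h2, hev n hn, h1]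
      simp
  obtain ⟨b, hbm, hb⟩ := IsLocalization.integerNormalization_spec (nonZeroDivisors ℤ) RQ
  refine ⟨b, nonZeroDivisors.ne_zero hbm, IsLocalization.integerNormalization
    (nonZeroDivisors ℤ) RQ, fun x => ?_⟩
  have h3 : ((IsLocalization.integerNormalization (nonZeroDivisors ℤ) RQ).map
      (algebraMap ℤ ℚ)).eval (x : ℚ) = (b • RQ).eval (x : ℚ) := by rw [hb]
  have h4 : (((IsLocalization.integerNormalization (nonZeroDivisors ℤ) RQ).map
      (algebraMap ℤ ℚ)).eval (x : ℚ)) =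
      (((IsLocalization.integerNormalization (nonZeroDivisors ℤ) RQ).eval x : ℤ) : ℚ) := by
    have := Polynomial.eval_intCast_map (algebraMap ℤ ℚ)
      (IsLocalization.integerNormalization (nonZeroDivisors ℤ) RQ) x
    simpa using this
  rw [h4] at h3
  have h5 : R.eval (x : ℝ) = ((RQ.eval (x : ℚ) : ℚ) : ℝ) := by
    rw [hmap]
    have : (x : ℝ) = algebraMap ℚ ℝ (x : ℚ) := by simp
    rw [this, Polynomial.eval_map_algebraMap, Polynomial.aeval_algebraMap_apply]
    simp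
  rw [h5]
  have h6 : ((((IsLocalization.integerNormalization (nonZeroDivisors ℤ) RQ).eval x : ℤ) : ℚ) : ℝ) =
      (((b : ℚ) * RQ.eval (x : ℚ) : ℚ) : ℝ) := by
    congr 1
    rw [h3, Polynomial.eval_smul, zsmul_eq_mul]
  push_cast at h6
  exact h6.symm

section main

variable {T : Type*} [Semigroup T] {s : ℕ}

/-- the good integers -/
def G (τ : ℕ+ → T) (R : Fin s → ℝ[X]) (e : T) (σ : Fin s → SignType) (n : ℕ+) : Prop :=
  τ n = e ∧ ∀ j, SignType.sign (sd ((R j).eval (n : ℝ))) = σ j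

/-- the good integers with small polynomial values -/
def G' (τ : ℕ+ → T) (R : Fin s → ℝ[X]) (e : T) (σ : Fin s → SignType) (δ : ℝ) (n : ℕ+) : Prop :=
  G τ R e σ n ∧ ∀ j, |sd ((R j).eval (n : ℝ))| < δ

variable {τ : ℕ+ → T} {R : Fin s → ℝ[X]} {e : T} {σ : Fin s → SignType} {δ : ℝ}
  {p : Ultrafilter ℕ+}

theorem large (hp : p ∈ J τ) (K : ℕ+) : ∀ᶠ n in (p : Filter ℕ+), K < n := by
  filter_upwards [hp.2.2.1 (K + 1)] with n hn
  exact lt_of_lt_of_le (PNat.lt_add_right K 1) (PNat.le_of_dvd hn)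

theorem prod_step (hp : p ∈ J τ) (hR : ∀ j, (R j).eval 0 = 0) (hδ : 0 < δ) {a : ℕ+}
    (ha : ∀ᶠ m in (p : Filter ℕ+), G τ R e σ (a * m)) :
    ∀ᶠ x in (p : Filter ℕ+), G' τ R e σ δ (a * x) := by
  have h1 : ∀ j, ∀ᶠ x : ℕ+ in (p : Filter ℕ+), |sd ((R j).eval ((a * x : ℕ+) : ℝ))| < δ := by
    intro j
    have h5 := hp.2.2.2 ((R j).comp (C (a : ℝ) * X)) (by simp [hR]) δ hδ
    filter_upwards [h5] with n hn
    rw [eval_comp] at hn
    simpa using hn
  filter_upwards [ha, eventually_all.2 h1] with x hx hx1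
  exact ⟨hx, hx1⟩

theorem sum_step (hp : p ∈ J τ) (he : e * e = e)
    (hσ : ∀ᶠ m in (p : Filter ℕ+), G τ R e σ m) (hδ2 : δ ≤ 1 / 2)
    {a v : ℕ+} (ha : ∀ᶠ m in (p : Filter ℕ+), G τ R e σ (a * m)) (hv : G' τ R e σ δ v) :
    ∀ᶠ x in (p : Filter ℕ+), G' τ R e σ δ (a * x + v) := by
  obtain ⟨⟨hv1, hv2⟩, hv3⟩ := hv
  have h1 : ∀ᶠ x in (p : Filter ℕ+), τ (a * x + v) = e := by
    filter_upwards [ha, hp.2.1 a v] with x hx hx1
    rw [hx1, hx.1, hv1, he]
  have h2 : ∀ j, ∀ᶠ x : ℕ+ in (p : Filter ℕ+),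
      SignType.sign (sd ((R j).eval ((a * x + v : ℕ+) : ℝ))) = σ j ∧
        |sd ((R j).eval ((a * x + v : ℕ+) : ℝ))| < δ := by
    intro j
    by_cases hz : sd ((R j).eval (v : ℝ)) = 0
    · -- the rational case
      have hσ0 : σ j = 0 := by rw [← hv2 j, hz, sign_zero]
      have hinf : {n : ℕ | ∃ z : ℤ, (R j).eval (n : ℝ) = z}.Infinite := by
        rw [Set.infinite_iff_exists_gt]
        intro K
        obtain ⟨n, hn1, hn2⟩ := (hσ.and (large hp (K.succPNat))).exists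
        refine ⟨n, ?_, ?_⟩
        · have := hn1.2 j
          rw [hσ0, sign_eq_zero_iff] at this
          exact sd_eq_zero_iff.1 this
        · have : ((K.succPNat : ℕ+) : ℕ) < n := hn2
          rw [Nat.succPNat_coe] at this
          omega
      obtain ⟨b, hb, R', hR'⟩ := rational_of_infinite (R j) hinf
      obtain ⟨z, hz'⟩ := sd_eq_zero_iff.1 hz
      have hbpos : 0 < b.natAbs := Int.natAbs_pos.2 hb
      filter_upwards [hp.2.2.1 ⟨b.natAbs, hbpos⟩] with x hx
      have hx' : b ∣ (x : ℤ) := by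
        have := PNat.dvd_iff.1 hx
        rw [PNat.mk_coe] at this
        exact Int.natAbs_dvd.1 (by exact_mod_cast this)
      obtain ⟨c, hc⟩ := hx'
      have h3 := hR' (a * x + v : ℤ)
      have h4 := hR' (v : ℤ)
      have h5 : ((a * x + v : ℤ) - v) ∣ R'.eval (a * x + v : ℤ) - R'.eval (v : ℤ) :=
        Polynomial.sub_dvd_eval_sub _ _ _
      obtain ⟨t, ht⟩ := h5
      have h6 : sd ((R j).eval ((a * x + v : ℕ+) : ℝ)) = 0 := by
        rw [sd_eq_zero_iff]
        refine ⟨z + a * c * t, ?_⟩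
        have hbR : (b : ℝ) ≠ 0 := by exact_mod_cast hb
        apply mul_left_cancel₀ hbR
        have e1 : ((a * x + v : ℕ+) : ℝ) = (((a * x + v : ℤ)) : ℝ) := by push_cast; rfl
        rw [e1, h3]
        have e2 : (b : ℝ) * z = ((R'.eval (v : ℤ) : ℤ) : ℝ) := by
          rw [← h4, ← hz']; norm_num
        have e3 : R'.eval (a * x + v : ℤ) = R'.eval (v : ℤ) + a * (b * c) * t := by
          rw [← hc]; linarith [ht, add_sub_cancel_right ((a : ℤ) * x) (v : ℤ)]
        rw [e3]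
        push_cast
        rw [← e2]
        ring
      rw [h6, hσ0]
      refine ⟨sign_zero, ?_⟩
      rw [abs_zero]
      exact lt_of_le_of_lt (abs_nonneg _) (hv3 j)
    · set S : ℝ[X] := (R j).comp (C (a : ℝ) * X + C (v : ℝ)) - C ((R j).eval (v : ℝ)) with hS
      have hS0 : S.eval 0 = 0 := by simp [hS]
      have hη : 0 < min |sd ((R j).eval (v : ℝ))| (δ - |sd ((R j).eval (v : ℝ))|) :=
        lt_min (abs_pos.2 hz) (sub_pos.2 (hv3 j))
      filter_upwards [hp.2.2.2 S hS0 _ hη] with x hx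
      rw [lt_min_iff] at hx
      have e1 : (R j).eval ((a * x + v : ℕ+) : ℝ) = (R j).eval (v : ℝ) + S.eval (x : ℝ) := by
        simp [hS]
      have h3 : |sd ((R j).eval (v : ℝ)) + sd (S.eval (x : ℝ))| < δ :=
        lt_of_le_of_lt (abs_add_le _ _) (by linarith [hx.2])
      have e2 := sd_add (lt_of_lt_of_le h3 hδ2)
      rw [e1, e2]
      refine ⟨?_, h3⟩
      rw [← hv2 j]
      have h4 := abs_lt.1 hx.1
      rcases lt_or_gt_of_ne hz with h | h
      · rw [sign_neg h, sign_neg]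
        rw [abs_of_neg h] at h4
        linarith [h4.2]
      · rw [sign_pos h, sign_pos]
        rw [abs_of_pos h] at h4
        linarith [h4.1]
  filter_upwards [h1, eventually_all.2 h2] with x hx1 hx2
  exact ⟨⟨hx1, fun j => (hx2 j).1⟩, fun j => (hx2 j).2⟩

/-- the invariant of the construction: `st.1` is the set of products, `st.2.1` the set of sums of
products and `st.2.2` the last element -/
def Inv (τ : ℕ+ → T) (R : Fin s → ℝ[X]) (e : T) (σ : Fin s → SignType) (δ : ℝ)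
    (p : Ultrafilter ℕ+) (st : Finset ℕ+ × Finset ℕ+ × ℕ+) : Prop :=
  1 ∈ st.1 ∧ (∀ a ∈ st.1, ∀ᶠ m in (p : Filter ℕ+), G τ R e σ (a * m)) ∧
    ∀ v ∈ st.2.1, G' τ R e σ δ v

/-- the next state -/
def next (st : Finset ℕ+ × Finset ℕ+ × ℕ+) (x : ℕ+) : Finset ℕ+ × Finset ℕ+ × ℕ+ :=
  (st.1 ∪ st.1.image (fun a => a * x),
    (st.2.1 ∪ st.1.image (fun a => a * x)) ∪
      (st.1 ×ˢ st.2.1).image (fun q => q.1 * x + q.2), x)

theorem step (hp : p ∈ J τ) (hpp : p * p = p) (he : e * e = e) (hR : ∀ j, (R j).eval 0 = 0)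
    (hσ : ∀ᶠ m in (p : Filter ℕ+), G τ R e σ m) (hδ : 0 < δ) (hδ2 : δ ≤ 1 / 2)
    (st : Finset ℕ+ × Finset ℕ+ × ℕ+) (hst : Inv τ R e σ δ p st) :
    ∃ x : ℕ+, st.2.2 < x ∧ Inv τ R e σ δ p (next st x) := by
  obtain ⟨h1, h2, h3⟩ := hst
  have ha : ∀ᶠ x in (p : Filter ℕ+), ∀ a ∈ st.1, G' τ R e σ δ (a * x) :=
    (eventually_all_finset st.1).2 fun a ha => prod_step hp hR hδ (h2 a ha)
  have hb : ∀ᶠ x in (p : Filter ℕ+), ∀ a ∈ st.1, ∀ v ∈ st.2.1, G' τ R e σ δ (a * x + v) :=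
    (eventually_all_finset st.1).2 fun a ha => (eventually_all_finset st.2.1).2 fun v hv =>
      sum_step hp he hσ hδ2 (h2 a ha) (h3 v hv)
  have hc : ∀ᶠ x in (p : Filter ℕ+), ∀ a ∈ st.1,
      ∀ᶠ m in (p : Filter ℕ+), G τ R e σ (a * x * m) := by
    refine (eventually_all_finset st.1).2 fun a ha => ?_
    have := (idem_eventually_mul hpp _).1 (h2 a ha)
    filter_upwards [this] with x hx
    filter_upwards [hx] with m hm
    rwa [mul_assoc]
  obtain ⟨x, hx1, hx2, hx3, hx4⟩ := (ha.and (hb.and (hc.and (large hp st.2.2)))).exists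
  refine ⟨x, hx4, Finset.mem_union_left _ h1, fun a ha => ?_, fun v hv => ?_⟩
  · rcases Finset.mem_union.1 ha with ha | ha
    · exact h2 a ha
    · obtain ⟨b, hb, rfl⟩ := Finset.mem_image.1 ha
      exact hx3 b hb
  · rcases Finset.mem_union.1 hv with hv | hv
    · rcases Finset.mem_union.1 hv with hv | hv
      · exact h3 v hv
      · obtain ⟨b, hb, rfl⟩ := Finset.mem_image.1 hv
        exact hx1 b hb
    · obtain ⟨⟨b, w⟩, hb, rfl⟩ := Finset.mem_image.1 hv
      rw [Finset.mem_product] at hb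
      exact hx2 b hb.1 w hb.2

theorem exists_seq (hp : p ∈ J τ) (hpp : p * p = p) (he : e * e = e)
    (hR : ∀ j, (R j).eval 0 = 0) (hσ : ∀ᶠ m in (p : Filter ℕ+), G τ R e σ m) (hδ : 0 < δ)
    (hδ2 : δ ≤ 1 / 2) (K : ℕ+) :
    ∃ x : ℕ → ℕ+, StrictMono x ∧ K < x 0 ∧ ∀ 𝓕 : Finset (Finset ℕ), 𝓕.Nonempty →
      (∀ F ∈ 𝓕, F.Nonempty) → (∀ F ∈ 𝓕, ∀ H ∈ 𝓕, F.max = H.max → F = H) →
      ∃ v : ℕ+, (v : ℕ) = ∑ F ∈ 𝓕, ∏ i ∈ F, (x i : ℕ) ∧ G' τ R e σ δ v := by
  classical
  have h0 : Inv τ R e σ δ p ({1}, ∅, K) := by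
    refine ⟨Finset.mem_singleton_self 1, fun a ha => ?_, fun v hv => ?_⟩
    · rw [Finset.mem_singleton] at ha
      subst ha
      simpa using hσ
    · simp at hv
  have hstep : ∀ st : {st : Finset ℕ+ × Finset ℕ+ × ℕ+ // Inv τ R e σ δ p st}, ∃ x : ℕ+,
      st.1.2.2 < x ∧ Inv τ R e σ δ p (next st.1 x) :=
    fun st => step hp hpp he hR hσ hδ hδ2 st.1 st.2
  choose f hf1 hf2 using hstep
  set st : ℕ → {st : Finset ℕ+ × Finset ℕ+ × ℕ+ // Inv τ R e σ δ p st} :=
    fun n => (fun s => (⟨next s.1 (f s), hf2 s⟩ :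
      {st : Finset ℕ+ × Finset ℕ+ × ℕ+ // Inv τ R e σ δ p st}))^[n] ⟨({1}, ∅, K), h0⟩ with hst
  have hsucc : ∀ n, (st (n + 1)).1 = next (st n).1 (f (st n)) := by
    intro n
    simp only [hst, Function.iterate_succ_apply']
  set x : ℕ → ℕ+ := fun n => f (st n) with hx
  have hlast : ∀ n, (st (n + 1)).1.2.2 = x n := by
    intro n; rw [hsucc]; rfl
  have hP : ∀ n, ∀ F : Finset ℕ, (∀ i ∈ F, i < n) → (∏ i ∈ F, x i) ∈ (st n).1.1 := by
    intro n
    induction n with
    | zero =>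
      intro F hF
      have : F = ∅ := Finset.eq_empty_of_forall_notMem fun i hi => by simpa using hF i hi
      subst this
      rw [Finset.prod_empty]
      exact (st 0).2.1
    | succ n ih =>
      intro F hF
      rw [hsucc]
      by_cases hn : n ∈ F
      · rw [← Finset.prod_erase_mul F x hn]
        refine Finset.mem_union_right _ (Finset.mem_image.2 ⟨_, ih (F.erase n) ?_, rfl⟩)
        intro i hi
        rw [Finset.mem_erase] at hi
        have := hF i hi.2
        omega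
      · refine Finset.mem_union_left _ (ih F fun i hi => ?_)
        have := hF i hi
        have : i ≠ n := fun h => hn (h ▸ hi)
        omega
  have hV : ∀ n, ∀ 𝓕 : Finset (Finset ℕ), 𝓕.Nonempty → (∀ F ∈ 𝓕, F.Nonempty) →
      (∀ F ∈ 𝓕, ∀ i ∈ F, i < n) → (∀ F ∈ 𝓕, ∀ H ∈ 𝓕, F.max = H.max → F = H) →
      ∃ v ∈ (st n).1.2.1, (v : ℕ) = ∑ F ∈ 𝓕, ∏ i ∈ F, (x i : ℕ) := by
    intro n
    induction n with
    | zero =>
      intro 𝓕 hne hF hlt _
      obtain ⟨F, hF'⟩ := hne
      obtain ⟨i, hi⟩ := hF F hF'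
      exact absurd (hlt F hF' i hi) (by omega)
    | succ n ih =>
      intro 𝓕 hne hF hlt hmax
      by_cases hn : ∃ F ∈ 𝓕, n ∈ F
      · obtain ⟨F, hF1, hF2⟩ := hn
        have hFm : ∀ H ∈ 𝓕, n ∈ H → H.max = (n : WithBot ℕ) := by
          intro H hH hnH
          apply le_antisymm
          · apply Finset.max_le
            intro i hi
            have := hlt H hH i hi
            exact WithBot.coe_le_coe.2 (Nat.lt_succ_iff.1 this)
          · exact Finset.le_max hnH
        have hother : ∀ H ∈ 𝓕.erase F, ∀ i ∈ H, i < n := by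
          intro H hH i hi
          rw [Finset.mem_erase] at hH
          have h1 := hlt H hH.2 i hi
          have h2 : i ≠ n := by
            rintro rfl
            exact hH.1 (hmax H hH.2 F hF1 ((hFm H hH.2 hi).trans (hFm F hF1 hF2).symm))
          omega
        have hprod : (∏ i ∈ F.erase n, x i) ∈ (st n).1.1 := by
          refine hP n _ fun i hi => ?_
          rw [Finset.mem_erase] at hi
          have := hlt F hF1 i hi.2
          omega
        have hprod' : ∏ i ∈ F, (x i : ℕ) = (((∏ i ∈ F.erase n, x i) * x n : ℕ+) : ℕ) := by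
          rw [Finset.prod_erase_mul F x hF2]
          exact (map_prod PNat.coeMonoidHom x F).symm
        rw [← Finset.add_sum_erase 𝓕 _ hF1, hprod']
        by_cases hemp : (𝓕.erase F).Nonempty
        · obtain ⟨v, hv1, hv2⟩ := ih (𝓕.erase F) hemp
            (fun H hH => hF H (Finset.mem_of_mem_erase hH)) hother
            (fun H hH H' hH' => hmax H (Finset.mem_of_mem_erase hH) H' (Finset.mem_of_mem_erase hH'))
          refine ⟨(∏ i ∈ F.erase n, x i) * x n + v, ?_, ?_⟩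
          · rw [hsucc]
            exact Finset.mem_union_right _ (Finset.mem_image.2
              ⟨(∏ i ∈ F.erase n, x i, v), Finset.mem_product.2 ⟨hprod, hv1⟩, rfl⟩)
          · rw [PNat.add_coe, hv2]
        · rw [Finset.not_nonempty_iff_eq_empty] at hemp
          refine ⟨(∏ i ∈ F.erase n, x i) * x n, ?_, ?_⟩
          · rw [hsucc]
            exact Finset.mem_union_left _ (Finset.mem_union_right _
              (Finset.mem_image.2 ⟨_, hprod, rfl⟩))
          · rw [hemp, Finset.sum_empty, add_zero]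
      · push Not at hn
        obtain ⟨v, hv1, hv2⟩ := ih 𝓕 hne hF (fun F hF' i hi => by
          have h1 := hlt F hF' i hi
          have h2 : i ≠ n := fun h => hn F hF' (h ▸ hi)
          omega) hmax
        refine ⟨v, ?_, hv2⟩
        rw [hsucc]
        exact Finset.mem_union_left _ (Finset.mem_union_left _ hv1)
  refine ⟨x, strictMono_nat_of_lt_succ fun n => ?_, ?_, fun 𝓕 hne hF hmax => ?_⟩
  · have := hf1 (st (n + 1))
    rwa [hlast n] at this
  · exact hf1 (st 0)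
  · obtain ⟨N, hN⟩ : ∃ N, ∀ F ∈ 𝓕, ∀ i ∈ F, i < N := by
      refine ⟨(𝓕.sup id).sup id + 1, fun F hF' i hi => ?_⟩
      have h1 : i ∈ 𝓕.sup id := Finset.mem_sup.2 ⟨F, hF', hi⟩
      have h2 : i ≤ (𝓕.sup id).sup id := Finset.le_sup (f := id) h1
      omega
    obtain ⟨v, hv1, hv2⟩ := hV N 𝓕 hne hF hN hmax
    exact ⟨v, hv2, (st N).2.2.2 v hv1⟩

end main

end Pool.Agent.TH833.SP
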