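import Pool.Agent.TH833.SP.Gen

set_option autoImplicit false

/-!
# Colourings of sieve type
-/

open Filter Topology

namespace Pool.Agent.TH833.SP.Sieve

attribute [local instance] Ultrafilter.semigroup Ultrafilter.addSemigroup

theorem card_le {X b A : ℕ} (hb : 0 < b) :
    ((Finset.Icc 1 X).filter (fun s => b ∣ 1 + A * s)).card ≤ X / b + 1 := by
  have h := Finset.card_le_card_of_injOn (s := (Finset.Icc 1 X).filter (fun s => b ∣ 1 + A * s))
    (t := Finset.range (X / b + 1)) (fun s => s / b) (fun s hs => by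
      simp only [Finset.coe_filter, Finset.mem_Icc, Set.mem_ofPred_eq] at hs
      simp only [Finset.coe_range, Set.mem_Iio]
      exact Nat.lt_succ_of_le (Nat.div_le_div_right hs.1.2)) ?_
  · simpa using h
  · intro s hs s' hs' hss
    simp only [Finset.coe_filter, Finset.mem_Icc, Set.mem_ofPred_eq] at hs hs'
    simp only at hss
    have hcop : Nat.Coprime b A := by
      have h1 : Nat.gcd b A ∣ 1 + A * s := (Nat.gcd_dvd_left b A).trans hs.2
      have h2 : Nat.gcd b A ∣ A * s := Dvd.dvd.mul_right (Nat.gcd_dvd_right b A) s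
      exact Nat.dvd_one.1 ((Nat.dvd_add_left h2).1 h1)
    have key : ∀ x y : ℕ, x ≤ y → b ∣ 1 + A * x → b ∣ 1 + A * y → x / b = y / b → x = y := by
      intro x y hxy hx hy hq
      have h1 : b ∣ A * (y - x) := by
        have : A * (y - x) = (1 + A * y) - (1 + A * x) := by
          rw [Nat.mul_sub]
          omega
        rw [this]
        exact Nat.dvd_sub hy hx
      have h2 : b ∣ y - x := hcop.dvd_of_dvd_mul_left h1
      have h3 : y - x < b := by
        have e1 := Nat.div_add_mod x b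
        have e2 := Nat.div_add_mod y b
        have m2 := Nat.mod_lt y hb
        rw [hq] at e1
        omega
      have h4 := Nat.eq_zero_of_dvd_of_lt h2 h3
      omega
    rcases le_total s s' with h | h
    · exact key s s' h hs.2 hs'.2 hss
    · exact (key s' s h hs'.2 hs.2 hss.symm).symm

open Classical in
/-- the weight function of a set of moduli -/
noncomputable def wt (𝓑 : Set ℕ) (b : ℕ) : ℝ := if b ∈ 𝓑 then 1 / (b : ℝ) else 0

theorem wt_nonneg (𝓑 : Set ℕ) (b : ℕ) : 0 ≤ wt 𝓑 b := by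
  unfold wt
  split_ifs
  · positivity
  · exact le_rfl

open Classical in
/-- few moduli up to `Y` -/
theorem count_small {𝓑 : Set ℕ} (hs : Summable (wt 𝓑)) {η : ℝ} (hη : 0 < η) :
    ∃ Y₀ : ℕ, ∀ Y : ℕ, Y₀ ≤ Y → (((Finset.Icc 1 Y).filter (· ∈ 𝓑)).card : ℝ) ≤ η * Y := by
  obtain ⟨s, hs'⟩ := summable_iff_vanishing_norm.1 hs (η / 2) (by positivity)
  obtain ⟨W, hW⟩ : ∃ W : ℕ, ∀ b ∈ s, b ≤ W := ⟨s.sup id, fun b hb => Finset.le_sup (f := id) hb⟩
  obtain ⟨Y₀, hY₀⟩ := exists_nat_ge (W * (2 / η))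
  refine ⟨Y₀ + 1, fun Y hY => ?_⟩
  have hsplit : (Finset.Icc 1 Y).filter (· ∈ 𝓑) ⊆
      (Finset.Icc 1 W) ∪ (Finset.Ioc W Y).filter (· ∈ 𝓑) := by
    intro b hb
    simp only [Finset.mem_filter, Finset.mem_Icc] at hb
    simp only [Finset.mem_union, Finset.mem_filter, Finset.mem_Icc, Finset.mem_Ioc]
    by_cases h : b ≤ W
    · exact Or.inl ⟨hb.1.1, h⟩
    · exact Or.inr ⟨⟨by omega, hb.1.2⟩, hb.2⟩
  have h1 : (((Finset.Icc 1 Y).filter (· ∈ 𝓑)).card : ℝ) ≤
      W + (((Finset.Ioc W Y).filter (· ∈ 𝓑)).card : ℝ) := by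
    have := (Finset.card_le_card hsplit).trans (Finset.card_union_le _ _)
    rw [Nat.card_Icc] at this
    have h2 : ((Finset.Icc 1 Y).filter (· ∈ 𝓑)).card ≤ W +
      ((Finset.Ioc W Y).filter (· ∈ 𝓑)).card := by omega
    exact_mod_cast h2
  have hYpos : (0 : ℝ) < Y := by
    have : 0 < Y := by omega
    exact_mod_cast this
  have h2 : (((Finset.Ioc W Y).filter (· ∈ 𝓑)).card : ℝ) ≤ η / 2 * Y := by
    have h3 : ∑ b ∈ (Finset.Ioc W Y).filter (· ∈ 𝓑), wt 𝓑 b < η / 2 := by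
      have hd : Disjoint ((Finset.Ioc W Y).filter (· ∈ 𝓑)) s := by
        rw [Finset.disjoint_left]
        intro b hb hbs
        simp only [Finset.mem_filter, Finset.mem_Ioc] at hb
        have := hW b hbs
        omega
      have := hs' _ hd
      rw [Real.norm_eq_abs, abs_of_nonneg (Finset.sum_nonneg fun b _ => wt_nonneg 𝓑 b)] at this
      exact this
    have h4 : (((Finset.Ioc W Y).filter (· ∈ 𝓑)).card : ℝ) * (1 / Y) ≤
        ∑ b ∈ (Finset.Ioc W Y).filter (· ∈ 𝓑), wt 𝓑 b := by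
      rw [← nsmul_eq_mul]
      refine Finset.card_nsmul_le_sum _ _ _ fun b hb => ?_
      simp only [Finset.mem_filter, Finset.mem_Ioc] at hb
      rw [wt, if_pos hb.2]
      apply one_div_le_one_div_of_le
      · have : 0 < b := by omega
        exact_mod_cast this
      · exact_mod_cast hb.1.2
    have h5 : (((Finset.Ioc W Y).filter (· ∈ 𝓑)).card : ℝ) * (1 / Y) < η / 2 :=
      lt_of_le_of_lt h4 h3
    rw [mul_one_div, div_lt_iff₀ hYpos] at h5
    exact h5.le
  have h3 : (W : ℝ) ≤ η / 2 * Y := by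
    have h4 : (W : ℝ) * (2 / η) ≤ Y := hY₀.trans (by exact_mod_cast (by omega : Y₀ ≤ Y))
    have h5 : (W : ℝ) * (2 / η) * (η / 2) ≤ Y * (η / 2) :=
      mul_le_mul_of_nonneg_right h4 (by positivity)
    have h6 : (W : ℝ) * (2 / η) * (η / 2) = W := by field_simp
    linarith
  linarith

open Classical in
/-- the sieve -/
theorem sieve {𝓑 : Set ℕ} (h2 : ∀ b ∈ 𝓑, 2 ≤ b) (hs : Summable (wt 𝓑)) (t : ℕ) (ht : 1 ≤ t) :
    ∃ n : ℕ, 0 < n ∧ (∀ d, 1 ≤ d → d ≤ t → d ∣ n) ∧
      ∀ a d, 1 ≤ a → a ≤ t → 1 ≤ d → d ≤ t → ∀ b ∈ 𝓑, ¬ b ∣ 1 + a * (n / d) := by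
  have htpos : (0 : ℝ) < t := by exact_mod_cast ht
  -- the tail
  obtain ⟨s, hs'⟩ := summable_iff_vanishing_norm.1 hs (1 / (4 * t ^ 2)) (by positivity)
  obtain ⟨z, hz⟩ : ∃ z : ℕ, ∀ b ∈ s, b ≤ z := ⟨s.sup id, fun b hb => Finset.le_sup (f := id) hb⟩
  set L : ℕ := (max t z).factorial with hL
  have hLpos : 0 < L := Nat.factorial_pos _
  have hLd : ∀ d, 1 ≤ d → d ≤ max t z → d ∣ L := fun d h1 h2 => Nat.dvd_factorial h1 h2
  -- the multipliers are `A a d = a (L / d) L`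
  set A : ℕ → ℕ → ℕ := fun a d => a * (L / d) * L with hA
  set Amax : ℕ := t * L * L with hAmax
  have hAle : ∀ a d, a ≤ t → A a d ≤ Amax := by
    intro a d ha
    exact Nat.mul_le_mul_right _ (Nat.mul_le_mul ha (Nat.div_le_self _ _))
  obtain ⟨Y₀, hY₀⟩ := count_small hs (η := 1 / (8 * t ^ 2 * (Amax + 1))) (by positivity)
  set X : ℕ := Y₀ + 1 with hX
  have hXpos : (0 : ℝ) < X := by positivity
  set Y : ℕ := 1 + Amax * X with hY
  have hYY : Y₀ ≤ Y := by
    have h1 : 1 ≤ Amax := by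
      rw [hAmax]
      exact Nat.mul_pos (Nat.mul_pos ht hLpos) hLpos
    nlinarith
  by_contra hcon
  push Not at hcon
  -- every `s ≤ X` is bad
  have hbad : ∀ s ∈ Finset.Icc 1 X, ∃ a ∈ Finset.Icc 1 t, ∃ d ∈ Finset.Icc 1 t,
      ∃ b ∈ (Finset.Ioc z Y).filter (· ∈ 𝓑), b ∣ 1 + A a d * s := by
    intro s hs1
    rw [Finset.mem_Icc] at hs1
    obtain ⟨a, d, ha1, ha2, hd1, hd2, b, hb, hdvd⟩ := hcon (L * L * s)
      (Nat.mul_pos (Nat.mul_pos hLpos hLpos) (by omega))
      (fun d h1 h2 => Dvd.dvd.mul_right (Dvd.dvd.mul_right (hLd d h1 (le_max_of_le_left h2)) _) _)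
    have hdL : d ∣ L := hLd d hd1 (le_max_of_le_left hd2)
    have e : a * (L * L * s / d) = A a d * s := by
      have h1 : L * L * s / d = L / d * L * s := by
        obtain ⟨L', hL'⟩ := hdL
        rw [hL', Nat.mul_div_cancel_left L' (by omega : 0 < d)]
        rw [show d * L' * (d * L') * s = d * (L' * (d * L') * s) by ring,
          Nat.mul_div_cancel_left _ (by omega : 0 < d)]
      rw [h1, hA]
      ring
    rw [e] at hdvd
    refine ⟨a, Finset.mem_Icc.2 ⟨ha1, ha2⟩, d, Finset.mem_Icc.2 ⟨hd1, hd2⟩, b, ?_, hdvd⟩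
    rw [Finset.mem_filter, Finset.mem_Ioc]
    refine ⟨⟨?_, ?_⟩, hb⟩
    · by_contra hbz
      have h3 : b ∣ L := hLd b (by have := h2 b hb; omega) (le_max_of_le_right (by omega))
      have h4 : b ∣ A a d * s := Dvd.dvd.mul_right (Dvd.dvd.mul_left h3 _) _
      have h5 := Nat.dvd_one.1 ((Nat.dvd_add_left h4).1 hdvd)
      have := h2 b hb
      omega
    · refine (Nat.le_of_dvd (by omega) hdvd).trans ?_
      rw [hY]
      exact Nat.add_le_add_left (Nat.mul_le_mul (hAle a d ha2) hs1.2) 1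
  -- counting
  have hcount : X ≤ ∑ a ∈ Finset.Icc 1 t, ∑ d ∈ Finset.Icc 1 t,
      ∑ b ∈ (Finset.Ioc z Y).filter (· ∈ 𝓑), (X / b + 1) := by
    calc X = (Finset.Icc 1 X).card := by simp
      _ ≤ ((Finset.Icc 1 t).biUnion fun a => (Finset.Icc 1 t).biUnion fun d =>
          ((Finset.Ioc z Y).filter (· ∈ 𝓑)).biUnion fun b =>
            (Finset.Icc 1 X).filter (fun s => b ∣ 1 + A a d * s)).card := by
          refine Finset.card_le_card fun s hs1 => ?_
          obtain ⟨a, ha, d, hd, b, hb, hdvd⟩ := hbad s hs1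
          refine Finset.mem_biUnion.2 ⟨a, ha, Finset.mem_biUnion.2 ⟨d, hd,
            Finset.mem_biUnion.2 ⟨b, hb, Finset.mem_filter.2 ⟨hs1, hdvd⟩⟩⟩⟩
      _ ≤ _ := by
          refine Finset.card_biUnion_le.trans (Finset.sum_le_sum fun a _ => ?_)
          refine Finset.card_biUnion_le.trans (Finset.sum_le_sum fun d _ => ?_)
          refine Finset.card_biUnion_le.trans (Finset.sum_le_sum fun b hb => ?_)
          rw [Finset.mem_filter, Finset.mem_Ioc] at hb
          exact card_le (by omega)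
  have hreal : (X : ℝ) ≤ t * (t * ∑ b ∈ (Finset.Ioc z Y).filter (· ∈ 𝓑), ((X : ℝ) / b + 1)) := by
    have h1 : (X : ℝ) ≤ ((∑ a ∈ Finset.Icc 1 t, ∑ d ∈ Finset.Icc 1 t,
      ∑ b ∈ (Finset.Ioc z Y).filter (· ∈ 𝓑), (X / b + 1) : ℕ) : ℝ) := by exact_mod_cast hcount
    refine h1.trans ?_
    rw [Finset.sum_const, Finset.sum_const, Nat.card_Icc]
    simp only [smul_eq_mul, add_tsub_cancel_right]
    push_cast
    refine mul_le_mul_of_nonneg_left (mul_le_mul_of_nonneg_left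
      (Finset.sum_le_sum fun b _ => ?_) htpos.le) htpos.le
    have := Nat.cast_div_le (α := ℝ) (m := X) (n := b)
    linarith
  have hsum1 : ∑ b ∈ (Finset.Ioc z Y).filter (· ∈ 𝓑), ((X : ℝ) / b) ≤ X * (1 / (4 * t ^ 2)) := by
    have h3 : ∑ b ∈ (Finset.Ioc z Y).filter (· ∈ 𝓑), wt 𝓑 b < 1 / (4 * t ^ 2) := by
      have hd : Disjoint ((Finset.Ioc z Y).filter (· ∈ 𝓑)) s := by
        rw [Finset.disjoint_left]
        intro b hb hbs
        simp only [Finset.mem_filter, Finset.mem_Ioc] at hb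
        have := hz b hbs
        omega
      have := hs' _ hd
      rw [Real.norm_eq_abs, abs_of_nonneg (Finset.sum_nonneg fun b _ => wt_nonneg 𝓑 b)] at this
      exact this
    have h4 : ∑ b ∈ (Finset.Ioc z Y).filter (· ∈ 𝓑), ((X : ℝ) / b) =
        X * ∑ b ∈ (Finset.Ioc z Y).filter (· ∈ 𝓑), wt 𝓑 b := by
      rw [Finset.mul_sum]
      refine Finset.sum_congr rfl fun b hb => ?_
      rw [Finset.mem_filter] at hb
      rw [wt, if_pos hb.2]
      ring
    rw [h4]
    exact mul_le_mul_of_nonneg_left h3.le hXpos.le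
  have hsum2 : (((Finset.Ioc z Y).filter (· ∈ 𝓑)).card : ℝ) ≤ X * (1 / (4 * t ^ 2)) := by
    have h5 : (((Finset.Ioc z Y).filter (· ∈ 𝓑)).card : ℝ) ≤
        (((Finset.Icc 1 Y).filter (· ∈ 𝓑)).card : ℝ) := by
      have : (Finset.Ioc z Y).filter (· ∈ 𝓑) ⊆ (Finset.Icc 1 Y).filter (· ∈ 𝓑) := by
        intro b hb
        simp only [Finset.mem_filter, Finset.mem_Ioc, Finset.mem_Icc] at hb ⊢
        exact ⟨⟨by omega, hb.1.2⟩, hb.2⟩
      exact_mod_cast Finset.card_le_card this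
    have h6 := hY₀ Y hYY
    have h7 : (Y : ℝ) ≤ 2 * ((Amax + 1) * X) := by
      rw [hY]
      push_cast
      have h8 : (1 : ℝ) ≤ X := by rw [hX]; push_cast; linarith [Nat.cast_nonneg (α := ℝ) Y₀]
      have h9 : (0 : ℝ) ≤ Amax := Nat.cast_nonneg _
      nlinarith
    calc (((Finset.Ioc z Y).filter (· ∈ 𝓑)).card : ℝ) ≤ 1 / (8 * t ^ 2 * (Amax + 1)) * Y :=
          h5.trans h6
      _ ≤ 1 / (8 * t ^ 2 * (Amax + 1)) * (2 * ((Amax + 1) * X)) :=
          mul_le_mul_of_nonneg_left h7 (by positivity)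
      _ = X * (1 / (4 * t ^ 2)) := by
          field_simp
          ring
  rw [Finset.sum_add_distrib, Finset.sum_const, nsmul_eq_mul, mul_one] at hreal
  have hfin : (X : ℝ) ≤ X / 2 := by
    calc (X : ℝ) ≤ t * (t * (X * (1 / (4 * t ^ 2)) + X * (1 / (4 * t ^ 2)))) :=
          hreal.trans (mul_le_mul_of_nonneg_left (mul_le_mul_of_nonneg_left
            (add_le_add hsum1 hsum2) htpos.le) htpos.le)
      _ = X / 2 := by
          field_simp
          ring
  linarith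

end Pool.Agent.TH833.SP.Sieve
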